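import Pool.Agent.Lib.MP_4b13b5_an.C73_Mem

set_option autoImplicit false
open Matrix Set Filter Topology

namespace Pool.Agent.Lib.MP_4b13b5_an.C73

lemma Cf_deriv {y : ℝ} (h : Real.sin y ≠ 0) : HasDerivAt Cf (-(1 + Cf y ^ 2)) y := by
  have := (Real.hasDerivAt_cos y).fun_div (Real.hasDerivAt_sin y) h
  have e : -(1 + Cf y ^ 2) = (-Real.sin y * Real.sin y - Real.cos y * Real.cos y)
      / Real.sin y ^ 2 := by
    unfold Cf; field_simp; ring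
  rw [e]
  exact this

lemma uf_deriv {n : ℕ} {y : ℝ} (h : Real.sin (((n : ℝ) + 1) * y) ≠ 0) :
    HasDerivAt (uf n) (((n : ℝ) + 1) * (1 + uf n y ^ 2)) y := by
  have h1 := ((Cf_deriv h).comp y ((hasDerivAt_id y).const_mul ((n : ℝ) + 1))).fun_neg
  have e : uf n = fun y => -(Cf ∘ fun y => ((n : ℝ) + 1) * id y) y := by
    funext y; simp [uf, Cf, neg_div]
  have e2 : ((n : ℝ) + 1) * (1 + uf n y ^ 2)
      = -(-(1 + Cf (((n : ℝ) + 1) * y) ^ 2) * (((n : ℝ) + 1) * 1)) := by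
    simp only [uf, Cf, neg_div]; ring
  rw [e2, e]
  exact h1

lemma pos_right {f : ℝ → ℝ} {x d : ℝ} (h : HasDerivAt f d x) (hd : 0 < d) (h0 : f x = 0) :
    ∀ᶠ y in 𝓝[>] x, 0 < f y := by
  have := eventually_nhdsWithin_sign_eq_of_deriv_pos (f := f) (x₀ := x) (by rw [h.deriv]; exact hd)
    h0
  filter_upwards [nhdsWithin_le_nhds this, self_mem_nhdsWithin] with y h1 h2
  rw [sign_pos (sub_pos.mpr h2)] at h1
  exact sign_eq_one_iff.mp h1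

lemma pos_right2 {f g : ℝ → ℝ} {x d : ℝ} (h : ∀ᶠ y in 𝓝 x, HasDerivAt f (g y) y)
    (hg : HasDerivAt g d x) (hd : 0 < d) (h0 : f x = 0) (h1 : g x = 0) :
    ∀ᶠ y in 𝓝[>] x, 0 < f y := by
  obtain ⟨b, hb, hs⟩ := mem_nhdsGT_iff_exists_Ioo_subset.mp
    ((pos_right hg hd h1).and (nhdsWithin_le_nhds h))
  filter_upwards [Ioo_mem_nhdsGT hb] with y hy
  have hm : StrictMonoOn f (Icc x y) := by
    refine strictMonoOn_of_deriv_pos (convex_Icc _ _) (fun t ht => ?_) fun t ht => ?_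
    · rcases ht.1.eq_or_lt with e | e
      · rw [← e]; exact h.self_of_nhds.continuousAt.continuousWithinAt
      · exact (hs ⟨e, ht.2.trans_lt hy.2⟩).2.continuousAt.continuousWithinAt
    · rw [interior_Icc] at ht
      have := hs ⟨ht.1, ht.2.trans hy.2⟩
      rw [this.2.deriv]
      exact this.1
  have := hm ⟨le_rfl, hy.1.le⟩ ⟨hy.1.le, le_rfl⟩ hy.1
  rwa [h0] at this

lemma C0_upper {n : ℕ} (hn : 3 ≤ n) :
    Cf (y0 n) ^ 2 + 1 ≤ 4053 / 10000 * ((n : ℝ) + 1) ^ 2 + 35 / 100 := by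
  have h0 := y0_pos n
  have h1 := Cf_sq (sin_y0_pos hn).ne'
  have h2 := Real.sin_ge_sub_cube h0.le
  have h3 := (y0_sq n).2
  have h4 : y0 n ≤ 3927 / 10000 := by linarith [y0_le hn, Real.pi_lt_d4]
  set x := y0 n
  have h5 : x ^ 2 ≤ 15422 / 100000 := by nlinarith
  have h6 : 0 < x - x ^ 3 / 6 := by nlinarith
  have h7 : (x - x ^ 3 / 6) ^ 2 ≤ Real.sin x ^ 2 := pow_le_pow_left₀ h6.le h2 2
  have h8 : (Cf x ^ 2 + 1) * (x - x ^ 3 / 6) ^ 2 ≤ 1 := by nlinarith [sq_nonneg (Cf x)]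
  have h9 : 1 ≤ (1 + 35 / 100 * x ^ 2) * (1 - x ^ 2 / 6) ^ 2 := by
    obtain ⟨t, ht⟩ : ∃ t, t = x ^ 2 := ⟨_, rfl⟩
    have : 0 ≤ t := by rw [ht]; positivity
    rw [← ht] at h5 ⊢
    nlinarith [mul_nonneg this this, mul_nonneg this (mul_nonneg this this)]
  apply le_of_mul_le_mul_right _ (pow_pos h6 2)
  have e : (x - x ^ 3 / 6) ^ 2 = x ^ 2 * (1 - x ^ 2 / 6) ^ 2 := by ring
  rw [e] at h8 ⊢
  nlinarith [sq_nonneg (1 - x ^ 2 / 6)]

lemma uf_y0 (n : ℕ) : uf n (y0 n) = 0 := by simp [uf, cos_y0]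

lemma Wf_y0 (n : ℕ) : Wf n (y0 n) = Cf (y0 n) ^ 2 - n := by simp [Wf, uf_y0]

noncomputable def W1 (n : ℕ) (y : ℝ) : ℝ := -2 * Cf y * (1 + Cf y ^ 2)
  - ((n : ℝ) + 1) * (1 + Cf y ^ 2) * uf n y + ((n : ℝ) + 1) ^ 2 * Cf y * (1 + uf n y ^ 2)
noncomputable def aa (n : ℕ) : ℝ := Cf (y0 n) * W1 n (y0 n) / (((n : ℝ) + 1) * Wf n (y0 n))
noncomputable def kk (n : ℕ) (y : ℝ) : ℝ :=
  (Cf y + uf n y) * (Wf n (y0 n) - Wf n y) + aa n * (uf n y * Wf n y)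
noncomputable def k1 (n : ℕ) (y : ℝ) : ℝ :=
  (-(1 + Cf y ^ 2) + ((n : ℝ) + 1) * (1 + uf n y ^ 2)) * (Wf n (y0 n) - Wf n y)
    - (Cf y + uf n y) * W1 n y
    + aa n * (((n : ℝ) + 1) * (1 + uf n y ^ 2) * Wf n y + uf n y * W1 n y)

lemma Wf_deriv {n : ℕ} {y : ℝ} (h1 : Real.sin y ≠ 0) (h2 : Real.sin (((n : ℝ) + 1) * y) ≠ 0) :
    HasDerivAt (Wf n) (W1 n y) y := by
  have hC := Cf_deriv h1
  have := ((hC.fun_pow 2).sub_const (n : ℝ)).fun_add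
    ((hC.const_mul ((n : ℝ) + 1)).fun_mul (uf_deriv h2))
  refine this.congr_deriv ?_
  simp only [W1]; push_cast; ring

lemma kk_deriv {n : ℕ} {y : ℝ} (h1 : Real.sin y ≠ 0) (h2 : Real.sin (((n : ℝ) + 1) * y) ≠ 0) :
    HasDerivAt (kk n) (k1 n y) y := by
  have hW := Wf_deriv h1 h2
  have hu := uf_deriv h2
  have := (((Cf_deriv h1).fun_add hu).fun_mul (hW.const_sub (Wf n (y0 n)))).fun_add
    ((hu.fun_mul hW).const_mul (aa n))
  refine this.congr_deriv ?_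
  simp only [k1]; ring

lemma good0 {n : ℕ} (hn : 3 ≤ n) : ∀ᶠ y in 𝓝 (y0 n), 0 < Real.sin y ∧
    0 < Real.sin (((n : ℝ) + 1) * y) := by
  refine (Real.continuous_sin.continuousAt.eventually (lt_mem_nhds (sin_y0_pos hn))).and ?_
  have : ContinuousAt (fun y => Real.sin (((n : ℝ) + 1) * y)) (y0 n) := by fun_prop
  refine this.eventually (lt_mem_nhds ?_)
  simp only [sin_y0, one_pos]

lemma k1_y0 {n : ℕ} (hn : 3 ≤ n) : k1 n (y0 n) = 0 := by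
  have hW : Wf n (y0 n) ≠ 0 := by rw [Wf_y0]; exact (W0_pos hn).ne'
  simp only [k1, aa, uf_y0]
  field_simp
  ring

lemma kk_pos {n : ℕ} (hn : 3 ≤ n) : ∀ᶠ y in 𝓝[>] (y0 n), 0 < kk n y := by
  have h1 := (sin_y0_pos hn).ne'
  have h2 : Real.sin (((n : ℝ) + 1) * y0 n) ≠ 0 := by rw [sin_y0]; exact one_ne_zero
  have hC := Cf_deriv h1
  have hu := uf_deriv h2
  have hW := Wf_deriv h1 h2
  have hS := (hC.fun_pow 2).const_add 1
  have hT := (hu.fun_pow 2).const_add 1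
  have hW1 : HasDerivAt (W1 n) _ (y0 n) := (((hC.const_mul (-2)).fun_mul hS).fun_sub
    ((hS.const_mul ((n : ℝ) + 1)).fun_mul hu)).fun_add
    ((hC.const_mul (((n : ℝ) + 1) ^ 2)).fun_mul hT)
  have hk : HasDerivAt (k1 n) _ (y0 n) := (((hS.fun_neg.fun_add
    (hT.const_mul ((n : ℝ) + 1))).fun_mul (hW.const_sub (Wf n (y0 n)))).fun_sub
    ((hC.fun_add hu).fun_mul hW1)).fun_add
    ((((hT.const_mul ((n : ℝ) + 1)).fun_mul hW).fun_add (hu.fun_mul hW1)).const_mul (aa n))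
  refine pos_right2 ((good0 hn).mono fun y hy => kk_deriv hy.1.ne' hy.2.ne') hk ?_
    (by simp [kk, uf_y0]) (k1_y0 hn)
  have hW0 := W0_pos hn
  have hc := C0_pos hn
  have hup := C0_upper hn
  have h3 : (3 : ℝ) ≤ n := by exact_mod_cast hn
  simp only [aa, W1, uf_y0, Wf_y0]
  set c := Cf (y0 n)
  obtain ⟨S, hS'⟩ : ∃ S, S = c ^ 2 + 1 := ⟨_, rfl⟩
  have key : 0 < (n + 1 : ℝ) ^ 4 - 3 * (n + 1) ^ 3 + 2 * (n + 1) ^ 2 - 2 * (n + 1) - S ^ 2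
      - (2 * (n + 1) ^ 2 - 7 * (n + 1) + 2) * S := by
    rw [← hS'] at hup
    have hS0 : 0 ≤ S := by rw [hS']; positivity
    have a1 := pow_le_pow_left₀ hS0 hup 2
    have a2 := mul_le_mul_of_nonneg_left hup
      (show (0 : ℝ) ≤ 2 * (n + 1) ^ 2 - 7 * (n + 1) + 2 by nlinarith)
    obtain ⟨m, hm⟩ : ∃ m : ℝ, (n : ℝ) = 3 + m := ⟨n - 3, by ring⟩
    have hm0 : 0 ≤ m := by linarith
    rw [hm] at a1 a2 ⊢
    nlinarith [pow_nonneg hm0 2, pow_nonneg hm0 3, pow_nonneg hm0 4]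
  have hpos : 0 < 2 * c * S * ((n + 1 : ℝ) ^ 4 - 3 * (n + 1) ^ 3 + 2 * (n + 1) ^ 2 - 2 * (n + 1)
      - S ^ 2 - (2 * (n + 1) ^ 2 - 7 * (n + 1) + 2) * S) / (c ^ 2 - n) := by
    have : 0 < S := by rw [hS']; positivity
    positivity
  refine hpos.trans_eq ?_
  have := hW0.ne'
  rw [hS']
  push_cast
  field_simp
  ring

lemma good1 {n : ℕ} (hn : 3 ≤ n) : ∀ᶠ y in 𝓝[>] (y0 n), (0 < Real.sin y ∧
    0 < Real.sin (((n : ℝ) + 1) * y)) ∧ 0 < Cf y ∧ 0 < uf n y ∧ 0 < Wf n y := by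
  have h1 := (sin_y0_pos hn).ne'
  have h2 : Real.sin (((n : ℝ) + 1) * y0 n) ≠ 0 := by rw [sin_y0]; exact one_ne_zero
  refine Eventually.and (nhdsWithin_le_nhds (good0 hn)) (Eventually.and ?_ (Eventually.and ?_ ?_))
  · exact nhdsWithin_le_nhds ((Cf_deriv h1).continuousAt.eventually (lt_mem_nhds (C0_pos hn)))
  · exact pos_right (uf_deriv h2) (by positivity) (uf_y0 n)
  · refine nhdsWithin_le_nhds ((Wf_deriv h1 h2).continuousAt.eventually (lt_mem_nhds ?_))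
    rw [Wf_y0]; exact W0_pos hn

lemma ratio_lim {n : ℕ} (hn : 3 ≤ n) :
    Tendsto (fun y => kk n y / (uf n y * Wf n y)) (𝓝[>] (y0 n)) (𝓝 0) := by
  have h1 := (sin_y0_pos hn).ne'
  have h2 : Real.sin (((n : ℝ) + 1) * y0 n) ≠ 0 := by rw [sin_y0]; exact one_ne_zero
  have a1 := hasDerivAt_iff_tendsto_slope.mp (kk_deriv h1 h2)
  have a2 := hasDerivAt_iff_tendsto_slope.mp ((uf_deriv h2).fun_mul (Wf_deriv h1 h2))
  have hW := W0_pos hn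
  have a3 := (a1.div a2 (by
    rw [uf_y0, Wf_y0, zero_mul, add_zero]; positivity)).mono_left (nhdsGT_le_nhdsNE _)
  rw [k1_y0 hn, zero_div] at a3
  refine a3.congr' ?_
  filter_upwards [self_mem_nhdsWithin] with y hy
  have : y - y0 n ≠ 0 := (sub_pos.mpr hy).ne'
  simp only [Pi.div_apply, slope_def_field, uf_y0, kk, sub_self, mul_zero, zero_mul, add_zero,
    sub_zero]
  exact div_div_div_cancel_right₀ this _ _

/-- The curve bends towards the origin. -/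
lemma curv {n : ℕ} (hn : 3 ≤ n) : ∀ᶠ y₂ in 𝓝[>] (y0 n), U n y₂ ≠ 0 ∧ V n y₂ ≠ 0 ∧
    ∃ y₁ s₁ s₂ : ℝ, 0 ≤ s₁ ∧ 0 ≤ s₂ ∧ s₁ + s₂ < 1 ∧ Real.cos (((n : ℝ) + 1) * y₁) ≠ 0 ∧
      Real.sin (((n : ℝ) + 1) * y₁) ≠ 0 ∧
      -Real.cos (((n : ℝ) + 1) * y₁) = s₂ * (-Real.cos (((n : ℝ) + 1) * y₂) / U n y₂) * U n y₁ ∧
      Real.sin (((n : ℝ) + 1) * y₁) =
        (s₁ / V n (y0 n) + s₂ * (Real.sin (((n : ℝ) + 1) * y₂) / V n y₂)) * V n y₁ := by
  have h1 := (sin_y0_pos hn).ne'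
  have h2 : Real.sin (((n : ℝ) + 1) * y0 n) ≠ 0 := by rw [sin_y0]; exact one_ne_zero
  have hW0 : 0 < Wf n (y0 n) := by rw [Wf_y0]; exact W0_pos hn
  filter_upwards [good1 hn, kk_pos hn] with y₂ ⟨⟨g1, g2⟩, g3, g4, g5⟩ hk
  have hU := U_eq' n g1.ne' g2.ne'
  have hV := V_eq' n g1.ne' g2.ne'
  refine ⟨by rw [hU]; positivity, by rw [hV]; positivity, ?_⟩
  set s2 : ℝ → ℝ := fun y => uf n y / (Cf y + uf n y) * ((Cf y₂ + uf n y₂) / uf n y₂) with hs2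
  set s1 : ℝ → ℝ := fun y => (1 / Wf n y - s2 y / Wf n y₂) * Wf n (y0 n) with hs1
  have c1 : ContinuousAt s1 (y0 n) := by
    have a1 := (Cf_deriv h1).continuousAt
    have a2 := (uf_deriv h2).continuousAt
    have a3 := (Wf_deriv h1 h2).continuousAt
    exact ((continuousAt_const.div a3 hW0.ne').sub (((a2.div (a1.add a2)
      (by rw [Pi.add_apply, uf_y0, add_zero]; exact (C0_pos hn).ne')).mul
        continuousAt_const).div_const _)).mul continuousAt_const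
  have c2 : ∀ᶠ y in 𝓝 (y0 n), 0 < s1 y := c1.eventually (lt_mem_nhds (by
    simp only [hs1, hs2, uf_y0, zero_div, zero_mul, sub_zero]; positivity))
  have c3 := (ratio_lim hn).eventually (gt_mem_nhds (show 0 < kk n y₂ / (uf n y₂ * Wf n y₂) by
    positivity))
  obtain ⟨y₁, ⟨⟨⟨f1, f2⟩, f3, f4, f5⟩, f6⟩, f7⟩ :=
    (((good1 hn).and (nhdsWithin_le_nhds c2)).and c3).exists
  have e1 : ∀ y, 0 < Real.sin (((n : ℝ) + 1) * y) →
      -Real.cos (((n : ℝ) + 1) * y) = uf n y * Real.sin (((n : ℝ) + 1) * y) := by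
    intro y hy
    unfold uf; field_simp
  refine ⟨y₁, s1 y₁, s2 y₁, f6.le, by simp only [hs2]; positivity, ?_, ?_, f2.ne', ?_, ?_⟩
  · rw [div_lt_div_iff₀ (by positivity) (by positivity)] at f7
    have : 1 - (s1 y₁ + s2 y₁) = (kk n y₂ * (uf n y₁ * Wf n y₁) - kk n y₁ * (uf n y₂ * Wf n y₂))
        / (Wf n y₁ * Wf n y₂ * uf n y₂ * (Cf y₁ + uf n y₁)) := by
      simp only [hs1, hs2, kk]
      field_simp
      ring
    have h3 : 0 < 1 - (s1 y₁ + s2 y₁) := by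
      rw [this]; exact div_pos (sub_pos.mpr f7) (by positivity)
    linarith
  · have := e1 y₁ f2
    have := mul_pos f4 f2
    linarith
  · rw [e1 y₁ f2, e1 y₂ g2, hU, U_eq' n f1.ne' f2.ne']
    simp only [hs2]
    field_simp
  · rw [V_y0 hn, ← Wf_y0, hV, V_eq' n f1.ne' f2.ne']
    simp only [hs1]
    field_simp
    ring

end Pool.Agent.Lib.MP_4b13b5_an.C73
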