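import Mathlib

set_option autoImplicit false
open Matrix Set Filter Topology

namespace Pool.Agent.Lib.MP_4b13b5_an.C73

/-- No root of modulus at least one. -/
def Stab {n : ℕ} (a : Fin n → ℝ) : Prop := ∀ z : ℂ, 1 ≤ ‖z‖ →
  z ^ n + ∑ j : Fin n, ((a j : ℝ) : ℂ) * z ^ (n - (j.val + 1)) ≠ 0

/-- Symmetric Toeplitz matrices. -/
def Toep {n : ℕ} (R : Matrix (Fin n) (Fin n) ℝ) : Prop :=
  ∃ r : ℕ → ℝ, ∀ i j : Fin n, R i j = r (Int.natAbs ((i.val : ℤ) - (j.val : ℤ)))

/-- The robustly stable set. -/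
def SS (n : ℕ) : Set (Fin n → ℝ) :=
  {a | Stab a ∧ ∀ R : Matrix (Fin n) (Fin n) ℝ, R.PosDef → Toep R →
    Stab ((R * (1 + R)⁻¹) *ᵥ a)}

noncomputable def xi (n : ℕ) : Fin n → ℝ := fun j => (n : ℝ) - 1 - 2 * (j.val : ℝ)
noncomputable def cv (n : ℕ) (y : ℝ) : Fin n → ℝ := fun j => Real.cos (xi n j * y)
noncomputable def sv (n : ℕ) (y : ℝ) : Fin n → ℝ := fun j => Real.sin (xi n j * y)

lemma circle {n : ℕ} (b : Fin n → ℝ) (y : ℝ) :
    Complex.exp (2 * y * Complex.I) ^ n
      + ∑ j : Fin n, ((b j : ℝ) : ℂ) * Complex.exp (2 * y * Complex.I) ^ (n - (j.val + 1))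
    = Complex.exp (((n : ℂ) - 1) * y * Complex.I) *
      (((Real.cos (((n : ℝ) + 1) * y) + b ⬝ᵥ cv n y : ℝ) : ℂ)
        + ((Real.sin (((n : ℝ) + 1) * y) + b ⬝ᵥ sv n y : ℝ) : ℂ) * Complex.I) := by
  have h1 : Complex.exp (2 * y * Complex.I) ^ n = Complex.exp (((n : ℂ) - 1) * y * Complex.I) *
      (((Real.cos (((n : ℝ) + 1) * y) : ℝ) : ℂ)
        + ((Real.sin (((n : ℝ) + 1) * y) : ℝ) : ℂ) * Complex.I) := by
    rw [Complex.ofReal_cos, Complex.ofReal_sin, ← Complex.exp_mul_I, ← Complex.exp_add,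
      ← Complex.exp_nat_mul]
    congr 1
    push_cast
    ring
  have h2 : ∀ j : Fin n, Complex.exp (2 * y * Complex.I) ^ (n - (j.val + 1))
      = Complex.exp (((n : ℂ) - 1) * y * Complex.I) *
      (((cv n y j : ℝ) : ℂ) + ((sv n y j : ℝ) : ℂ) * Complex.I) := by
    intro j
    unfold cv sv xi
    rw [Complex.ofReal_cos, Complex.ofReal_sin, ← Complex.exp_mul_I, ← Complex.exp_add,
      ← Complex.exp_nat_mul, Nat.cast_sub (by omega)]
    congr 1
    push_cast
    ring
  rw [h1, Finset.sum_congr rfl fun j _ => by rw [h2 j]]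
  simp only [dotProduct]
  push_cast
  set E := Complex.exp (((n : ℂ) - 1) * y * Complex.I)
  have e : ∑ j : Fin n, (b j : ℂ) * (E * ((cv n y j : ℂ) + (sv n y j : ℂ) * Complex.I))
      = E * (∑ j : Fin n, (b j : ℂ) * (cv n y j : ℂ))
        + E * ((∑ j : Fin n, (b j : ℂ) * (sv n y j : ℂ)) * Complex.I) := by
    rw [Finset.sum_mul, Finset.mul_sum, Finset.mul_sum, ← Finset.sum_add_distrib]
    exact Finset.sum_congr rfl fun j _ => by ring
  rw [e]
  ring

/-- A root on the circle from the two real equations. -/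
lemma not_stab {n : ℕ} (b : Fin n → ℝ) (y : ℝ)
    (h1 : Real.cos (((n : ℝ) + 1) * y) + b ⬝ᵥ cv n y = 0)
    (h2 : Real.sin (((n : ℝ) + 1) * y) + b ⬝ᵥ sv n y = 0) : ¬ Stab b := by
  intro h
  apply h (Complex.exp (2 * y * Complex.I))
  · have := Complex.norm_exp_ofReal_mul_I (2 * y)
    push_cast at this
    exact this.ge
  · rw [circle, h1, h2]
    simp

lemma reverse_eq {n : ℕ} (b : Fin n → ℝ) (z : ℂ) (hz : z ≠ 0) :
    z ^ n + ∑ j : Fin n, ((b j : ℝ) : ℂ) * z ^ (n - (j.val + 1))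
      = z ^ n * (1 + ∑ j : Fin n, ((b j : ℝ) : ℂ) * z⁻¹ ^ (j.val + 1)) := by
  rw [mul_add, mul_one, Finset.mul_sum]
  congr 1
  refine Finset.sum_congr rfl fun j _ => ?_
  rw [pow_sub₀ z hz (by omega), inv_pow]
  ring

/-- Zero exclusion along the segment from the origin. -/
lemma stab_of_circle {n : ℕ} (b : Fin n → ℝ)
    (h : ∀ s ∈ Icc (0 : ℝ) 1, ∀ y ∈ Icc (0 : ℝ) (Real.pi / 2),
      ¬ (Real.cos (((n : ℝ) + 1) * y) + s * (b ⬝ᵥ cv n y) = 0 ∧
        Real.sin (((n : ℝ) + 1) * y) + s * (b ⬝ᵥ sv n y) = 0)) : Stab b := by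
  set H : ℂ → ℂ := fun w => ∑ j : Fin n, ((b j : ℝ) : ℂ) * w ^ (j.val + 1) with hH
  have hHd : Differentiable ℂ H := by
    rw [hH]; fun_prop
  have hcirc : ∀ t : ℝ, t ≤ -1 → ∀ w : ℂ, ‖w‖ = 1 → H w ≠ t := by
    intro t ht w hw hEq
    have hw0 : w ≠ 0 := by
      intro h0; rw [h0] at hw; simp at hw
    have hz : ‖w⁻¹‖ = 1 := by rw [norm_inv, hw, inv_one]
    set y := Complex.arg w⁻¹ / 2 with hy
    have hzy : Complex.exp (2 * y * Complex.I) = w⁻¹ := by
      have := Complex.norm_mul_exp_arg_mul_I w⁻¹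
      rw [hz] at this
      refine Eq.trans ?_ this
      rw [hy]
      push_cast
      rw [one_mul]
      congr 1
      ring
    have ht0 : t ≠ 0 := by linarith
    have hs : -t⁻¹ ∈ Icc (0 : ℝ) 1 := by
      constructor
      · have : t⁻¹ < 0 := inv_lt_zero.mpr (by linarith)
        linarith
      · rw [← inv_neg]; exact inv_le_one_of_one_le₀ (by linarith)
    have hc := circle ((-t⁻¹) • b) y
    rw [hzy, reverse_eq _ _ (inv_ne_zero hw0), inv_inv] at hc
    have hsum : (1 + ∑ j : Fin n, ((((-t⁻¹) • b) j : ℝ) : ℂ) * w ^ (j.val + 1)) = 0 := by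
      have : ∑ j : Fin n, ((((-t⁻¹) • b) j : ℝ) : ℂ) * w ^ (j.val + 1) = (-(t : ℂ)⁻¹) * H w := by
        rw [hH, Finset.mul_sum]
        refine Finset.sum_congr rfl fun j _ => ?_
        simp only [Pi.smul_apply, smul_eq_mul]
        push_cast
        ring
      rw [this, hEq]
      have : (t : ℂ) ≠ 0 := by exact_mod_cast ht0
      field_simp
      ring
    rw [hsum, mul_zero] at hc
    have hc2 := (mul_eq_zero.mp hc.symm).resolve_left (Complex.exp_ne_zero _)
    have hre := congrArg Complex.re hc2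
    have him := congrArg Complex.im hc2
    simp only [Complex.add_re, Complex.ofReal_re, Complex.mul_re, Complex.I_re, Complex.ofReal_im,
      Complex.I_im, Complex.zero_re, Complex.add_im, Complex.mul_im, Complex.zero_im, mul_zero,
      mul_one, sub_zero, add_zero, zero_add, smul_dotProduct, smul_eq_mul] at hre him
    have ha1 := Complex.arg_le_pi w⁻¹
    have ha2 := Complex.neg_pi_lt_arg w⁻¹
    rcases le_total 0 y with h0 | h0
    · exact h _ hs y ⟨h0, by rw [hy]; linarith⟩ ⟨hre, him⟩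
    · refine h _ hs (-y) ⟨by linarith, by rw [hy]; linarith⟩ ⟨?_, ?_⟩
      · have : cv n (-y) = cv n y := by
          funext j; simp [cv]
        rw [this, mul_neg, Real.cos_neg]; exact hre
      · have : sv n (-y) = -sv n y := by
          funext j; simp [sv]
        rw [this, mul_neg, Real.sin_neg, dotProduct_neg]; linarith
  intro z hz hz0
  have hzne : z ≠ 0 := by
    intro h0; rw [h0] at hz; norm_num at hz
  rw [reverse_eq _ _ hzne] at hz0
  have hw : H z⁻¹ = ((-1 : ℝ) : ℂ) := by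
    have := (mul_eq_zero.mp hz0).resolve_left (pow_ne_zero _ hzne)
    push_cast
    rw [hH]
    linear_combination this
  set K : Set ℂ := Metric.closedBall 0 1 ∩ {w | (H w).im = 0 ∧ (H w).re ≤ -1} with hK
  have hHc : Continuous H := hHd.continuous
  have hKc : IsCompact K := by
    apply (isCompact_closedBall 0 1).inter_right
    exact (isClosed_eq (f := fun w => (H w).im) (by fun_prop) continuous_const).inter
      (isClosed_le (f := fun w => (H w).re) (by fun_prop) continuous_const)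
  have hKne : K.Nonempty := by
    refine ⟨z⁻¹, ?_, ?_⟩
    · rw [mem_closedBall_zero_iff, norm_inv]; exact inv_le_one_of_one_le₀ hz
    · simp [hw]
  obtain ⟨w, hwK, hmin⟩ := hKc.exists_isMinOn hKne
    (f := fun w => (H w).re) (by fun_prop)
  have hwt : H w = ((H w).re : ℂ) := by
    apply Complex.ext <;> simp [hwK.2.1]
  have hw1 : ‖w‖ < 1 := by
    have h1 : ‖w‖ ≤ 1 := mem_closedBall_zero_iff.mp hwK.1
    exact lt_of_le_of_ne h1 fun h2 => hcirc _ hwK.2.2 w h2 hwt
  have han : AnalyticOnNhd ℂ H univ := hHd.differentiableOn.analyticOnNhd isOpen_univ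
  rcases han.is_constant_or_isOpenMap with ⟨c, hc⟩ | hopen
  · have h0 : H 0 = 0 := by simp [hH]
    have := hwK.2.2
    rw [hc w, ← hc 0, h0] at this
    norm_num at this
  · have hU := hopen _ (Metric.isOpen_ball (x := (0 : ℂ)) (ε := 1))
    obtain ⟨ε, hε, hsub⟩ := Metric.isOpen_iff.mp hU (H w) ⟨w, mem_ball_zero_iff.mpr hw1, rfl⟩
    have : H w - ((ε / 2 : ℝ) : ℂ) ∈ Metric.ball (H w) ε := by
      rw [Metric.mem_ball, dist_eq_norm, sub_sub_cancel_left, norm_neg, Complex.norm_real,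
        Real.norm_eq_abs, abs_of_pos (by linarith)]
      linarith
    obtain ⟨w', hw', hEq⟩ := hsub this
    have hre : (H w').re = (H w).re - ε / 2 := by rw [hEq]; simp
    have him : (H w').im = 0 := by rw [hEq]; simp [hwK.2.1]
    have hK' : w' ∈ K := ⟨Metric.ball_subset_closedBall hw', him, by
      have := hwK.2.2
      rw [hre]; linarith⟩
    have := hmin hK'
    simp only [mem_ofPred_eq] at this
    linarith

end Pool.Agent.Lib.MP_4b13b5_an.C73
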