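import Pool.Agent.Lib.MP_4b13b5_an.C73_Non

set_option autoImplicit false
open Matrix Set Filter Topology

namespace Pool.Agent.Lib.MP_4b13b5_an.C73

lemma stab_one (a : Fin 1 → ℝ) : Stab a ↔ -1 < a 0 ∧ a 0 < 1 := by
  simp only [Stab, Fin.sum_univ_one, Fin.val_zero, zero_add, Nat.sub_self, pow_zero, mul_one,
    pow_one]
  rw [← abs_lt]
  constructor
  · intro h
    by_contra hc
    refine h (-(a 0 : ℂ)) ?_ (by ring)
    rw [norm_neg, Complex.norm_real, Real.norm_eq_abs]
    exact not_lt.mp hc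
  · intro h z hz h0
    rw [eq_neg_of_add_eq_zero_left h0, norm_neg, Complex.norm_real, Real.norm_eq_abs] at hz
    linarith

lemma real_root {a b : ℝ} (h : 1 + a + b ≤ 0) : ∃ x : ℝ, 1 ≤ x ∧ x ^ 2 + a * x + b = 0 := by
  have h1 : (a + 2) ^ 2 ≤ a ^ 2 - 4 * b := by nlinarith
  have h2 := Real.sq_sqrt ((sq_nonneg _).trans h1)
  have h3 := Real.le_sqrt_of_sq_le h1
  exact ⟨(-a + Real.sqrt (a ^ 2 - 4 * b)) / 2, by linarith, by nlinarith⟩

lemma stab_two (a : Fin 2 → ℝ) : Stab a ↔ a 1 < 1 ∧ 0 < 1 + a 0 + a 1 ∧ 0 < 1 - a 0 + a 1 := by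
  have e : ∀ z : ℂ, z ^ 2 + ∑ j : Fin 2, ((a j : ℝ) : ℂ) * z ^ (2 - (j.val + 1))
      = z ^ 2 + a 0 * z + a 1 := by
    intro z
    simp [Fin.sum_univ_two, add_assoc]
  simp only [Stab, e]
  constructor
  · intro h
    refine ⟨?_, ?_, ?_⟩
    · by_contra hc
      obtain ⟨w, hw⟩ := IsAlgClosed.exists_pow_nat_eq ((a 0 : ℂ) ^ 2 - 4 * a 1) two_pos
      have h1 : ‖(-(a 0 : ℂ) + w) / 2‖ < 1 :=
        not_le.mp fun h' => h _ h' (by linear_combination hw / 4)
      have h2 : ‖(-(a 0 : ℂ) - w) / 2‖ < 1 :=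
        not_le.mp fun h' => h _ h' (by linear_combination hw / 4)
      have h3 : (-(a 0 : ℂ) + w) / 2 * ((-(a 0 : ℂ) - w) / 2) = a 1 := by
        linear_combination -hw / 4
      have h4 := mul_lt_one_of_nonneg_of_lt_one_left (norm_nonneg _) h1 h2.le
      rw [← norm_mul, h3, Complex.norm_real, Real.norm_eq_abs] at h4
      linarith [le_abs_self (a 1)]
    · by_contra hc
      obtain ⟨x, h1, h2⟩ := real_root (not_lt.mp hc)
      refine h x ?_ (by exact_mod_cast h2)
      rw [Complex.norm_real, Real.norm_eq_abs]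
      exact h1.trans (le_abs_self x)
    · by_contra hc
      obtain ⟨x, h1, h2⟩ := real_root (a := -a 0) (b := a 1) (by linarith)
      refine h (-x : ℝ) ?_ (by exact_mod_cast (by linarith : (-x) ^ 2 + a 0 * -x + a 1 = 0))
      rw [Complex.norm_real, Real.norm_eq_abs, abs_neg]
      exact h1.trans (le_abs_self x)
  · rintro ⟨h1, h2, h3⟩ z hz h0
    have hn : 1 ≤ z.re * z.re + z.im * z.im := by
      rw [← Complex.normSq_apply, Complex.normSq_eq_norm_sq]; nlinarith
    have hre := congrArg Complex.re h0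
    have him := congrArg Complex.im h0
    simp only [pow_two, Complex.add_re, Complex.mul_re, Complex.ofReal_re, Complex.ofReal_im,
      Complex.add_im, Complex.mul_im, Complex.zero_re, Complex.zero_im, zero_mul, sub_zero,
      add_zero] at hre him
    have : z.im * (2 * z.re + a 0) = 0 := by linarith
    rcases mul_eq_zero.mp this with h' | h'
    · rw [h'] at hn hre
      rcases le_total 0 z.re with hx | hx
      · have : 1 ≤ z.re := by nlinarith
        nlinarith
      · have : z.re ≤ -1 := by nlinarith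
        nlinarith
    · have : a 0 = -2 * z.re := by linarith
      rw [this] at hre
      nlinarith

lemma convex_of_stab {n : ℕ} (h : Convex ℝ {a : Fin n → ℝ | Stab a}) : Convex ℝ (SS n) := by
  intro x hx y hy a b ha hb hab
  refine ⟨h hx.1 hy.1 ha hb hab, fun R hR hT => ?_⟩
  rw [mulVec_add, mulVec_smul, mulVec_smul]
  exact h (hx.2 R hR hT) (hy.2 R hR hT) ha hb hab

lemma comb_lt {a b u v w : ℝ} (ha : 0 ≤ a) (hb : 0 ≤ b) (hab : a + b = 1) (hu : u < w)
    (hv : v < w) : a * u + b * v < w :=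
  convex_Iio w hu hv ha hb hab

theorem convex_low {n : ℕ} (hn : n ≤ 2) : Convex ℝ (SS n) := by
  apply convex_of_stab
  interval_cases n
  · exact subsingleton_of_subsingleton.convex
  · intro x hx y hy a b ha hb hab
    simp only [mem_ofPred_eq, stab_one, Pi.add_apply, Pi.smul_apply, smul_eq_mul] at hx hy ⊢
    have := comb_lt (u := -x 0) (v := -y 0) (w := 1) ha hb hab (by linarith) (by linarith)
    exact ⟨by linarith, comb_lt ha hb hab hx.2 hy.2⟩
  · intro x hx y hy a b ha hb hab
    simp only [mem_ofPred_eq, stab_two, Pi.add_apply, Pi.smul_apply, smul_eq_mul] at hx hy ⊢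
    have h1 := comb_lt (u := -x 0 - x 1) (v := -y 0 - y 1) (w := 1) ha hb hab (by linarith)
      (by linarith)
    have h2 := comb_lt (u := x 0 - x 1) (v := y 0 - y 1) (w := 1) ha hb hab (by linarith)
      (by linarith)
    exact ⟨comb_lt ha hb hab hx.1 hy.1, by linarith, by linarith⟩

theorem convex_iff (n : ℕ) : Convex ℝ (SS n) ↔ n ≤ 2 :=
  ⟨fun h => by
    by_contra hc
    exact not_convex (by omega) h, convex_low⟩

end Pool.Agent.Lib.MP_4b13b5_an.C73
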