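import Pool.Agent.Lib.MP_4b13b5_an.C73_Node

set_option autoImplicit false
open Matrix Set Filter Topology

namespace Pool.Agent.Lib.MP_4b13b5_an.C73

noncomputable def pp (n : ℕ) (y : ℝ) : Fin n → ℝ := mu n y • ph n y
noncomputable def qq (n : ℕ) (y : ℝ) : Fin n → ℝ := (-nu n y) • qh n y
noncomputable def FF (n : ℕ) (σ : ℝ) (z : ℝ × ℝ) : ℝ :=
  mu n z.1 * (((1 : ℝ) • ph n z.1 + σ • cv n z.2) ⬝ᵥ ((1 : ℝ) • ph n z.1 + σ • cv n z.2)) / (4 * 1)
noncomputable def GG (n : ℕ) (κ σ : ℝ) (z : ℝ × ℝ) : ℝ :=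
  nu n z.1 * ((κ • qh n z.1 + σ • sv n z.2) ⬝ᵥ (κ • qh n z.1 + σ • sv n z.2)) / (4 * κ)

lemma pp_sym (n : ℕ) (y τ : ℝ) : Sym (τ • pp n y) := by
  intro j
  simp only [pp, ph, Pi.smul_apply, Pi.sub_apply, cv_sym n y j, one_sym n j]

lemma qq_anti (n : ℕ) (y τ : ℝ) : Anti (τ • qq n y) := by
  intro j
  simp only [qq, qh, Pi.smul_apply, Pi.sub_apply, sv_anti n y j, xi_anti n j, smul_eq_mul]
  ring

lemma critA {n : ℕ} {y t τ σ : ℝ} (hm : 0 ≤ mu n y) (hτ : 0 ≤ τ)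
    (h : τ * FF n σ (y, t) < -σ * Real.cos (((n : ℝ) + 1) * t)) (β : Fin n → ℝ)
    (hβ : β ⬝ᵥ β ≤ β ⬝ᵥ (τ • pp n y)) : Real.cos (((n : ℝ) + 1) * t) + β ⬝ᵥ cv n t ≠ 0 := by
  intro h0
  rw [pp, smul_smul, dotProduct_smul, smul_eq_mul] at hβ
  have h1 := ball_bound (σ • cv n t) (mul_nonneg hτ hm) one_pos hβ
  rw [dotProduct_smul, smul_eq_mul, eq_neg_of_add_eq_zero_right h0] at h1
  simp only [FF] at h
  rw [← mul_div_assoc, ← mul_assoc] at h
  linarith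

lemma critB {n : ℕ} {y t τ κ σ : ℝ} (hm : 0 ≤ nu n y) (hτ : 0 ≤ τ) (hκ : 0 < κ)
    (h : τ * GG n κ σ (y, t) < σ * Real.sin (((n : ℝ) + 1) * t)) (γ : Fin n → ℝ)
    (hγ : γ ⬝ᵥ γ ≤ γ ⬝ᵥ (τ • qq n y)) : Real.sin (((n : ℝ) + 1) * t) + γ ⬝ᵥ sv n t ≠ 0 := by
  intro h0
  have hβ : (-γ) ⬝ᵥ (-γ) ≤ (τ * nu n y) * ((-γ) ⬝ᵥ qh n y) := by
    rw [qq, smul_smul, dotProduct_smul, smul_eq_mul] at hγ
    rw [neg_dotProduct_neg, neg_dotProduct]
    linarith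
  have h1 := ball_bound (σ • sv n t) (mul_nonneg hτ hm) hκ hβ
  rw [dotProduct_smul, smul_eq_mul, neg_dotProduct, ← eq_neg_of_add_eq_zero_left h0] at h1
  simp only [GG] at h
  rw [← mul_div_assoc, ← mul_assoc] at h
  linarith

lemma sq_deriv {n : ℕ} (a : Fin n → ℝ) {c : ℝ → Fin n → ℝ} {d : Fin n → ℝ} {t : ℝ}
    (h : ∀ j, HasDerivAt (fun t => c t j) (d j) t) :
    HasDerivAt (fun t => ((1 : ℝ) • a + (1 : ℝ) • c t) ⬝ᵥ ((1 : ℝ) • a + (1 : ℝ) • c t))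
      (2 * ((a + c t) ⬝ᵥ d)) t := by
  have := HasDerivAt.fun_sum (u := Finset.univ) fun j _ =>
    ((h j).const_add (a j)).fun_mul ((h j).const_add (a j))
  have e2 : 2 * ((a + c t) ⬝ᵥ d) = ∑ j, (d j * (a j + c t j) + (a j + c t j) * d j) := by
    simp only [dotProduct, Finset.mul_sum, Pi.add_apply]
    exact Finset.sum_congr rfl fun j _ => by ring
  rw [e2]
  simpa only [one_smul, dotProduct, Pi.add_apply] using this

lemma near_mono {φ : ℝ → ℝ → ℝ} {ψ : ℝ × ℝ → ℝ} {x : ℝ}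
    (hd : ∀ y t, HasDerivAt (φ y) (ψ (y, t)) t) (hc : ContinuousAt ψ (x, x)) (h0 : 0 < ψ (x, x)) :
    ∀ᶠ δ in 𝓝[>] (0 : ℝ), ∀ y, |y - x| < δ → StrictMonoOn (φ y) (Ioo (x - δ) (x + δ)) := by
  obtain ⟨ε, hε, h⟩ := Metric.eventually_nhds_iff.mp (hc.eventually (lt_mem_nhds h0))
  filter_upwards [Ioo_mem_nhdsGT hε] with δ hδ y hy
  refine strictMonoOn_of_deriv_pos (convex_Ioo _ _)
    (fun t _ => (hd y t).continuousAt.continuousWithinAt) fun t ht => ?_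
  rw [interior_Ioo] at ht
  rw [(hd y t).deriv]
  apply h
  rw [Prod.dist_eq, max_lt_iff, Real.dist_eq, Real.dist_eq]
  exact ⟨hy.trans hδ.2, abs_lt.mpr ⟨by linarith [ht.1, hδ.2], by linarith [ht.2, hδ.2]⟩⟩

lemma ph_cont (n : ℕ) : Continuous (ph n) := by
  have := U_cont n
  have := cv_cont n
  unfold ph; fun_prop

lemma qh_cont (n : ℕ) : Continuous (qh n) := by
  have := V_cont n
  have := sv_cont n
  unfold qh; fun_prop

lemma U0_pos {n : ℕ} (hn : 3 ≤ n) : 0 < U n (y0 n) := by rw [U_y0 hn]; exact C0_pos hn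
lemma V0_pos {n : ℕ} (hn : 3 ≤ n) : 0 < V n (y0 n) := by rw [V_y0 hn]; exact W0_pos hn

lemma mu_cont {n : ℕ} (hn : 3 ≤ n) : ContinuousAt (mu n) (y0 n) := by
  have := U_cont n
  exact ContinuousAt.div (by fun_prop) (by fun_prop) (pow_pos (U0_pos hn) 2).ne'

lemma nu_cont {n : ℕ} (hn : 3 ≤ n) : ContinuousAt (nu n) (y0 n) := by
  have := V_cont n
  exact ContinuousAt.div (by fun_prop) (by fun_prop) (pow_pos (V0_pos hn) 2).ne'

lemma mu_y0 (n : ℕ) : mu n (y0 n) = 0 := by simp [mu, cos_y0]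

lemma nu0_pos {n : ℕ} (hn : 3 ≤ n) : 0 < nu n (y0 n) := by
  have := Q_pos hn
  have := V0_pos hn
  unfold nu; rw [sin_y0]; positivity

lemma FF_cont {n : ℕ} (hn : 3 ≤ n) (σ t : ℝ) : ContinuousAt (FF n σ) (y0 n, t) := by
  have h1 : ContinuousAt (fun z : ℝ × ℝ => mu n z.1) (y0 n, t) :=
    (mu_cont hn).fst'
  have := ph_cont n
  have := cv_cont n
  exact (h1.mul (Continuous.dotProduct (by fun_prop) (by fun_prop)).continuousAt).div_const _

lemma GG_cont {n : ℕ} (hn : 3 ≤ n) (κ σ t : ℝ) : ContinuousAt (GG n κ σ) (y0 n, t) := by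
  have h1 : ContinuousAt (fun z : ℝ × ℝ => nu n z.1) (y0 n, t) :=
    (nu_cont hn).fst'
  have := qh_cont n
  have := sv_cont n
  exact (h1.mul (Continuous.dotProduct (by fun_prop) (by fun_prop)).continuousAt).div_const _

lemma FF_diag {n : ℕ} (hn : 3 ≤ n) {y : ℝ} (h : U n y ≠ 0) :
    FF n 1 (y, y) = -Real.cos (((n : ℝ) + 1) * y) := by
  have h3 : (3 : ℝ) ≤ n := by exact_mod_cast hn
  have : (n : ℝ) ≠ 0 := by linarith
  simp only [FF, ph, mu, one_smul, sub_add_cancel, smul_dotProduct, dotProduct_smul, one_dot,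
    smul_eq_mul]
  field_simp
  ring

lemma GG_diag {n : ℕ} (hn : 3 ≤ n) {y : ℝ} (h : V n y ≠ 0) :
    GG n 1 1 (y, y) = Real.sin (((n : ℝ) + 1) * y) := by
  have := (Q_pos hn).ne'
  have e : xi n ⬝ᵥ xi n = Q n := rfl
  simp only [GG, qh, nu, one_smul, sub_add_cancel, smul_dotProduct, dotProduct_smul, e,
    smul_eq_mul]
  field_simp
  ring

lemma nearA {n : ℕ} (hn : 3 ≤ n) : ∀ᶠ δ in 𝓝[>] (0 : ℝ), ∀ y, |y - y0 n| < δ →
    StrictMonoOn (fun t => -Real.cos (((n : ℝ) + 1) * t) - FF n 1 (y, t))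
      (Ioo (y0 n - δ) (y0 n + δ)) := by
  refine near_mono (φ := fun y t => -Real.cos (((n : ℝ) + 1) * t) - FF n 1 (y, t))
    (ψ := fun z => Real.sin (((n : ℝ) + 1) * z.2) * (n + 1) - mu n z.1 *
      (2 * ((ph n z.1 + cv n z.2) ⬝ᵥ fun j => -(xi n j * sv n z.2 j))) / (4 * 1))
    (fun y t => ?_) ?_ ?_
  · refine HasDerivAt.fun_sub ?_
      (((sq_deriv (ph n y) fun j => cv_deriv n t j).const_mul (mu n y)).div_const (4 * 1))
    simpa using ((hasDerivAt_id t).const_mul ((n : ℝ) + 1)).cos.fun_neg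
  · have h1 : ContinuousAt (fun z : ℝ × ℝ => mu n z.1) (y0 n, y0 n) :=
      (mu_cont hn).fst'
    have := ph_cont n
    have := cv_cont n
    have := sv_cont n
    exact ContinuousAt.sub (by fun_prop) ((h1.mul (continuous_const.mul
      (Continuous.dotProduct (by fun_prop) (by fun_prop))).continuousAt).div_const _)
  · simp only [mu_y0, sin_y0]
    have : (0 : ℝ) ≤ n := Nat.cast_nonneg n
    linarith

lemma V1_pos {n : ℕ} (hn : 3 ≤ n) : 0 < xi n ⬝ᵥ fun j => xi n j * cv n (y0 n) j := by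
  have h3 : (3 : ℝ) ≤ n := by exact_mod_cast hn
  have hc : ∀ j, 0 < cv n (y0 n) j := by
    intro j
    have h1 : (j.val : ℝ) + 1 ≤ n := by exact_mod_cast j.2
    have h2 : (0 : ℝ) ≤ j.val := Nat.cast_nonneg _
    have h4 := N_y0 n
    have h5 := y0_pos n
    apply Real.cos_pos_of_mem_Ioo
    unfold xi
    constructor <;> nlinarith
  refine Finset.sum_pos' (fun j _ => ?_) ⟨⟨0, by omega⟩, Finset.mem_univ _, ?_⟩
  · nlinarith [hc j, sq_nonneg (xi n j)]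
  · have : 0 < xi n ⟨0, by omega⟩ := by simp only [xi]; push_cast; linarith
    have := hc ⟨0, by omega⟩
    positivity

lemma nearB {n : ℕ} (hn : 3 ≤ n) : ∀ᶠ δ in 𝓝[>] (0 : ℝ), ∀ y, |y - y0 n| < δ →
    StrictMonoOn (fun t => GG n 1 1 (y, t) - Real.sin (((n : ℝ) + 1) * t))
      (Ioo (y0 n - δ) (y0 n + δ)) := by
  refine near_mono (φ := fun y t => GG n 1 1 (y, t) - Real.sin (((n : ℝ) + 1) * t))
    (ψ := fun z => nu n z.1 * (2 * ((qh n z.1 + sv n z.2) ⬝ᵥ fun j => xi n j * cv n z.2 j))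
      / (4 * 1) - Real.cos (((n : ℝ) + 1) * z.2) * (n + 1))
    (fun y t => ?_) ?_ ?_
  · refine HasDerivAt.fun_sub
      (((sq_deriv (qh n y) fun j => sv_deriv n t j).const_mul (nu n y)).div_const (4 * 1)) ?_
    simpa using ((hasDerivAt_id t).const_mul ((n : ℝ) + 1)).sin
  · have h1 : ContinuousAt (fun z : ℝ × ℝ => nu n z.1) (y0 n, y0 n) :=
      (nu_cont hn).fst'
    have := qh_cont n
    have := cv_cont n
    have := sv_cont n
    exact ContinuousAt.sub ((h1.mul (continuous_const.mul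
      (Continuous.dotProduct (by fun_prop) (by fun_prop))).continuousAt).div_const _) (by fun_prop)
  · simp only [cos_y0, qh, sub_add_cancel, smul_dotProduct, smul_eq_mul, zero_mul, sub_zero]
    have := V1_pos hn
    have := nu0_pos hn
    have := V0_pos hn
    have := Q_pos hn
    positivity

lemma far {n : ℕ} (hn : 3 ≤ n) {δ : ℝ} (hδ : 0 < δ) : ∀ᶠ y in 𝓝 (y0 n),
    ∀ t ∈ Icc (0 : ℝ) (Real.pi / 2) \ Ioo (y0 n - δ) (y0 n + δ),
      (∃ σ, FF n σ (y, t) < -σ * Real.cos (((n : ℝ) + 1) * t)) ∨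
      ∃ σ, GG n (3 / 2) σ (y, t) < σ * Real.sin (((n : ℝ) + 1) * t) := by
  refine (isCompact_Icc.diff isOpen_Ioo).eventually_forall_of_forall_eventually
    (P := fun y t => (∃ σ, FF n σ (y, t) < -σ * Real.cos (((n : ℝ) + 1) * t)) ∨
      ∃ σ, GG n (3 / 2) σ (y, t) < σ * Real.sin (((n : ℝ) + 1) * t)) fun t ht => ?_
  by_cases hc : Real.cos (((n : ℝ) + 1) * t) = 0
  · have h := node hn ht.1 (fun e => ht.2 ⟨by linarith, by linarith⟩) hc
    obtain ⟨σ, hσ⟩ : ∃ σ, σ = Real.sin (((n : ℝ) + 1) * t) := ⟨_, rfl⟩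
    have h' : GG n (3 / 2) σ (y0 n, t) < σ * Real.sin (((n : ℝ) + 1) * (y0 n, t).2) := by
      rw [hσ]; exact h
    have := (GG_cont hn (3 / 2) σ t).eventually_lt
      (g := fun z : ℝ × ℝ => σ * Real.sin (((n : ℝ) + 1) * z.2)) (by fun_prop) h'
    filter_upwards [this] with z hz using Or.inr ⟨σ, hz⟩
  · obtain ⟨σ, hσ⟩ : ∃ σ, σ = -Real.cos (((n : ℝ) + 1) * t) := ⟨_, rfl⟩
    have h' : FF n σ (y0 n, t) < -σ * Real.cos (((n : ℝ) + 1) * (y0 n, t).2) := by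
      simp only [FF, mu_y0, zero_mul, zero_div, hσ, neg_neg]
      exact mul_self_pos.mpr hc
    have := (FF_cont hn σ t).eventually_lt
      (g := fun z : ℝ × ℝ => -σ * Real.cos (((n : ℝ) + 1) * z.2)) (by fun_prop) h'
    filter_upwards [this] with z hz using Or.inl ⟨σ, hz⟩

lemma mu_ev {n : ℕ} : ∀ᶠ y in 𝓝[≥] (y0 n), 0 ≤ mu n y := by
  have h0 := y0_pos n
  filter_upwards [Icc_mem_nhdsGE (show y0 n < 2 * y0 n by linarith)] with y hy
  have h := N_y0 n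
  have hN : (0 : ℝ) < n + 1 := by positivity
  have : Real.cos (((n : ℝ) + 1) * y) ≤ 0 := Real.cos_nonpos_of_pi_div_two_le_of_le
    (by nlinarith [hy.1]) (by nlinarith [hy.2, Real.pi_pos])
  unfold mu
  exact div_nonneg (mul_nonneg (by linarith) (Nat.cast_nonneg n)) (sq_nonneg _)

/-- The points of the curve, slightly shrunk, are robustly stable. -/
lemma mem_ev {n : ℕ} (hn : 3 ≤ n) : ∀ᶠ y in 𝓝[≥] (y0 n), ∀ τ₁ ∈ Ico (0 : ℝ) 1,
    ∀ τ₂ ∈ Ico (0 : ℝ) 1, τ₁ • pp n y + τ₂ • qq n y ∈ SS n := by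
  have h0 := y0_pos n
  obtain ⟨δ, ⟨hA, hB⟩, hδ⟩ := (((nearA hn).and (nearB hn)).and (Ioo_mem_nhdsGT h0)).exists
  have e1 : ∀ᶠ y in 𝓝 (y0 n), 0 < nu n y := (nu_cont hn).eventually (lt_mem_nhds (nu0_pos hn))
  have e2 : ∀ᶠ y in 𝓝 (y0 n), 0 < U n y :=
    (U_cont n).continuousAt.eventually (lt_mem_nhds (U0_pos hn))
  have e3 : ∀ᶠ y in 𝓝 (y0 n), 0 < V n y :=
    (V_cont n).continuousAt.eventually (lt_mem_nhds (V0_pos hn))
  have e4 : ∀ᶠ y in 𝓝 (y0 n), y ∈ Ioo (y0 n - δ) (y0 n + δ) :=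
    Ioo_mem_nhds (by linarith [hδ.1]) (by linarith [hδ.1])
  filter_upwards [mu_ev, nhdsWithin_le_nhds e1, nhdsWithin_le_nhds e2, nhdsWithin_le_nhds e3,
    nhdsWithin_le_nhds e4, nhdsWithin_le_nhds (far hn hδ.1)] with y hm hν hU hV hy hf τ₁ h1 τ₂ h2
  have hy' : |y - y0 n| < δ := abs_lt.mpr ⟨by linarith [hy.1], by linarith [hy.2]⟩
  have F0 : ∀ σ t, τ₁ * FF n σ (y, t) ≤ FF n σ (y, t) := fun σ t =>
    mul_le_of_le_one_left (div_nonneg (mul_nonneg hm (dot_nonneg _)) (by norm_num)) h1.2.le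
  have G0 : ∀ σ t, τ₂ * GG n (3 / 2) σ (y, t) ≤ GG n (3 / 2) σ (y, t) := fun σ t =>
    mul_le_of_le_one_left (div_nonneg (mul_nonneg hν.le (dot_nonneg _)) (by norm_num)) h2.2.le
  refine mem_of (pp_sym n y τ₁) (qq_anti n y τ₂) fun t ht => ?_
  by_cases hin : t ∈ Ioo (y0 n - δ) (y0 n + δ)
  · rcases lt_or_ge y t with hyt | hyt
    · have := hA y hy' hy hin hyt
      simp only [FF_diag hn hU.ne'] at this
      exact Or.inl (critA (σ := 1) hm h1.1 (by linarith [F0 1 t]))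
    · have := (hB y hy').monotoneOn hin hy hyt
      simp only [GG_diag hn hV.ne'] at this
      have hN : (0 : ℝ) < n + 1 := by positivity
      have h := N_y0 n
      have hs : 0 < Real.sin (((n : ℝ) + 1) * t) := Real.sin_pos_of_pos_of_lt_pi
        (mul_pos hN (by linarith [hin.1, hδ.2])) (by nlinarith [hin.2, hδ.2])
      refine Or.inr (critB (σ := 1) hν.le h2.1 one_pos ?_)
      nlinarith [h2.1, h2.2]
  · rcases hf t ⟨ht, hin⟩ with ⟨σ, h⟩ | ⟨σ, h⟩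
    · exact Or.inl (critA hm h1.1 ((F0 σ t).trans_lt h))
    · exact Or.inr (critB hν.le h2.1 (by norm_num) ((G0 σ t).trans_lt h))

end Pool.Agent.Lib.MP_4b13b5_an.C73
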