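import Pool.Agent.Lib.MP_4b13b5_an.C73_Trig

set_option autoImplicit false
open Matrix Set Filter Topology

namespace Pool.Agent.Lib.MP_4b13b5_an.C73

noncomputable def y0 (n : ℕ) : ℝ := Real.pi / (2 * ((n : ℝ) + 1))
noncomputable def ph (n : ℕ) (y : ℝ) : Fin n → ℝ := (2 * U n y / n) • one n - cv n y
noncomputable def qh (n : ℕ) (y : ℝ) : Fin n → ℝ := (2 * V n y / Q n) • xi n - sv n y
noncomputable def mu (n : ℕ) (y : ℝ) : ℝ := -Real.cos (((n : ℝ) + 1) * y) * n / U n y ^ 2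
noncomputable def nu (n : ℕ) (y : ℝ) : ℝ := Real.sin (((n : ℝ) + 1) * y) * Q n / V n y ^ 2

lemma N_y0 (n : ℕ) : ((n : ℝ) + 1) * y0 n = Real.pi / 2 := by
  unfold y0; field_simp

lemma cos_y0 (n : ℕ) : Real.cos (((n : ℝ) + 1) * y0 n) = 0 := by rw [N_y0, Real.cos_pi_div_two]
lemma sin_y0 (n : ℕ) : Real.sin (((n : ℝ) + 1) * y0 n) = 1 := by rw [N_y0, Real.sin_pi_div_two]

lemma y0_pos (n : ℕ) : 0 < y0 n := by
  unfold y0; have := Real.pi_pos; positivity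

lemma y0_le {n : ℕ} (hn : 3 ≤ n) : y0 n ≤ Real.pi / 8 := by
  have h : (3 : ℝ) ≤ n := by exact_mod_cast hn
  have := N_y0 n
  nlinarith [y0_pos n]

lemma sin_y0_pos {n : ℕ} (hn : 3 ≤ n) : 0 < Real.sin (y0 n) :=
  Real.sin_pos_of_pos_of_lt_pi (y0_pos n) (by linarith [y0_le hn, Real.pi_pos])

lemma C0_pos {n : ℕ} (hn : 3 ≤ n) : 0 < Cf (y0 n) :=
  div_pos (Real.cos_pos_of_mem_Ioo ⟨by linarith [y0_pos n, Real.pi_pos],
    by linarith [y0_le hn, Real.pi_pos]⟩) (sin_y0_pos hn)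

lemma Cf_sq {y : ℝ} (h : Real.sin y ≠ 0) : (Cf y ^ 2 + 1) * Real.sin y ^ 2 = 1 := by
  unfold Cf; field_simp; exact Real.cos_sq_add_sin_sq y

lemma y0_sq (n : ℕ) : 4052 / 10000 * ((n : ℝ) + 1) ^ 2 * y0 n ^ 2 ≤ 1 ∧
    1 ≤ 4053 / 10000 * ((n : ℝ) + 1) ^ 2 * y0 n ^ 2 := by
  have h1 := Real.pi_gt_d6
  have h2 := Real.pi_lt_d6
  have e : ((n : ℝ) + 1) ^ 2 * y0 n ^ 2 = (Real.pi / 2) ^ 2 := by rw [← mul_pow, N_y0]
  rw [mul_assoc, mul_assoc, e]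
  constructor <;> nlinarith

lemma C0_lower {n : ℕ} (hn : 3 ≤ n) : 1 ≤ (Cf (y0 n) ^ 2 + 1) * y0 n ^ 2 := by
  have h1 := Cf_sq (sin_y0_pos hn).ne'
  have h2 : Real.sin (y0 n) ^ 2 ≤ y0 n ^ 2 :=
    pow_le_pow_left₀ (sin_y0_pos hn).le (Real.sin_le (y0_pos n).le) 2
  nlinarith [sq_nonneg (Cf (y0 n))]

lemma C0_lower' {n : ℕ} (hn : 3 ≤ n) :
    4052 / 10000 * ((n : ℝ) + 1) ^ 2 ≤ Cf (y0 n) ^ 2 + 1 := by
  have h1 := C0_lower hn
  have h2 := (y0_sq n).1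
  have h3 : 0 < y0 n ^ 2 := pow_pos (y0_pos n) 2
  exact le_of_mul_le_mul_right (h2.trans h1) h3

lemma W0_pos {n : ℕ} (hn : 3 ≤ n) : 0 < Cf (y0 n) ^ 2 - n := by
  have h : (3 : ℝ) ≤ n := by exact_mod_cast hn
  have := C0_lower' hn
  nlinarith

lemma U_y0 {n : ℕ} (hn : 3 ≤ n) : U n (y0 n) = Cf (y0 n) := by
  rw [U_eq n (sin_y0_pos hn).ne', cos_y0, sin_y0]; ring

lemma V_y0 {n : ℕ} (hn : 3 ≤ n) : V n (y0 n) = Cf (y0 n) ^ 2 - n := by
  rw [V_eq n (sin_y0_pos hn).ne', cos_y0, sin_y0]; ring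

lemma Q_pos {n : ℕ} (hn : 3 ≤ n) : 0 < Q n := by
  have h : (3 : ℝ) ≤ n := by exact_mod_cast hn
  rw [Q_eq]
  have : 0 < (n : ℝ) ^ 2 - 1 := by nlinarith
  positivity

lemma Cf_le {y : ℝ} (h0 : 0 < y) (h1 : y ≤ Real.pi / 2) : Cf y ^ 2 * y ^ 2 ≤ 1 := by
  have hs : 0 < Real.sin y := Real.sin_pos_of_pos_of_lt_pi h0 (by linarith [Real.pi_pos])
  have hc : 0 ≤ Real.cos y := Real.cos_nonneg_of_mem_Icc ⟨by linarith [Real.pi_pos], h1⟩
  have h : y * Real.cos y ≤ Real.sin y := by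
    rcases h1.eq_or_lt with h2 | h2
    · rw [h2]; simp
    · have h3 := Real.le_tan h0.le h2
      rwa [Real.tan_eq_sin_div_cos, le_div_iff₀
        (Real.cos_pos_of_mem_Ioo ⟨by linarith [Real.pi_pos], h2⟩)] at h3
  rw [← mul_pow]
  apply pow_le_one₀ (by unfold Cf; positivity)
  unfold Cf
  rw [div_mul_eq_mul_div, div_le_one hs]
  linarith

lemma U_shift (n : ℕ) {t c : ℝ} (h1 : Real.sin t ≠ 0) (h2 : Real.sin (((n : ℝ) + 1) * t) = 0)
    (h3 : Real.cos (((n : ℝ) + 1) * t) = c) : U n t = -c := by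
  rw [U_eq n h1, h2, h3]; ring

/-- The inequality at the other zeros of the cosine. -/
lemma node {n : ℕ} (hn : 3 ≤ n) {y : ℝ} (hy : y ∈ Icc (0 : ℝ) (Real.pi / 2)) (hne : y ≠ y0 n)
    (hc : Real.cos (((n : ℝ) + 1) * y) = 0) :
    nu n (y0 n) * (((3 / 2 : ℝ) • qh n (y0 n) + Real.sin (((n : ℝ) + 1) * y) • sv n y) ⬝ᵥ
      ((3 / 2 : ℝ) • qh n (y0 n) + Real.sin (((n : ℝ) + 1) * y) • sv n y)) / (4 * (3 / 2))
      < Real.sin (((n : ℝ) + 1) * y) * Real.sin (((n : ℝ) + 1) * y) := by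
  have h3n : (3 : ℝ) ≤ n := by exact_mod_cast hn
  have hpi := Real.pi_pos
  have hy0 := y0_pos n
  have hy8 := y0_le hn
  set σ := Real.sin (((n : ℝ) + 1) * y) with hσ
  have hσ2 : σ * σ = 1 := by
    have := Real.sin_sq_add_cos_sq (((n : ℝ) + 1) * y)
    rw [hc] at this
    linarith
  have h3 : 3 * y0 n ≤ y := by
    obtain ⟨k, hk⟩ := Real.cos_eq_zero_iff.mp hc
    have e : y = (2 * (k : ℝ) + 1) * y0 n := by
      have : ((n : ℝ) + 1) * y = ((n : ℝ) + 1) * ((2 * (k : ℝ) + 1) * y0 n) := by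
        rw [hk, mul_left_comm, N_y0]; ring
      exact mul_left_cancel₀ (by positivity) this
    have hk0 : (0 : ℝ) ≤ 2 * (k : ℝ) + 1 := by
      by_contra h
      push Not at h
      have := mul_neg_of_neg_of_pos h hy0
      linarith [hy.1]
    have hk1 : (0 : ℤ) ≤ 2 * k + 1 := by exact_mod_cast hk0
    have hk2 : k ≠ 0 := by
      rintro rfl
      apply hne
      rw [e]; simp
    have hk3 : (1 : ℝ) ≤ k := by exact_mod_cast (show (1 : ℤ) ≤ k by omega)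
    rw [e]
    nlinarith
  have hs : 0 < Real.sin y := Real.sin_pos_of_pos_of_lt_pi (by linarith) (by linarith [hy.2])
  have u1 : U n (y - y0 n) = -σ := by
    apply U_shift n (Real.sin_pos_of_pos_of_lt_pi (by linarith) (by linarith [hy.2])).ne'
    · rw [mul_sub, Real.sin_sub, cos_y0, hc]; ring
    · rw [mul_sub, Real.cos_sub, cos_y0, sin_y0]; ring
  have u2 : U n (y + y0 n) = - -σ := by
    apply U_shift n (Real.sin_pos_of_pos_of_lt_pi (by linarith) (by linarith [hy.2])).ne'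
    · rw [mul_add, Real.sin_add, cos_y0, hc]; ring
    · rw [mul_add, Real.cos_add, cos_y0, sin_y0]; ring
  have u3 : U n (y0 n + y0 n) = - -1 := by
    apply U_shift n (Real.sin_pos_of_pos_of_lt_pi (by linarith) (by linarith)).ne'
    · rw [mul_add, Real.sin_add, cos_y0]; ring
    · rw [mul_add, Real.cos_add, cos_y0, sin_y0]; ring
  have d1 : sv n y ⬝ᵥ sv n (y0 n) = -σ := by rw [sv_dot, u1, u2]; ring
  have d2 : sv n (y0 n) ⬝ᵥ sv n (y0 n) = (n - 1) / 2 := by rw [sv_dot, sub_self, U_zero, u3]; ring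
  have d3 := sv_dot_le n y
  have d4 : xi n ⬝ᵥ sv n y = σ * (Cf y ^ 2 - n) := by
    have := V_eq n hs.ne'
    rw [hc, mul_zero, sub_zero] at this
    exact this
  have d5 : xi n ⬝ᵥ sv n (y0 n) = V n (y0 n) := rfl
  have d6 : xi n ⬝ᵥ xi n = Q n := rfl
  have hV := V_y0 hn
  have hW := W0_pos hn
  have hQ := Q_pos hn
  unfold nu qh
  rw [sin_y0, hσ2, one_mul]
  simp only [add_dotProduct, dotProduct_add, sub_dotProduct, dotProduct_sub, smul_dotProduct,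
    dotProduct_smul, smul_eq_mul, dotProduct_comm (sv n _) (xi n),
    dotProduct_comm (sv n (y0 n)) (sv n y), d1, d2, d4, d5, d6]
  set T := sv n y ⬝ᵥ sv n y
  set W := V n (y0 n)
  have hW' : 0 < W := by rw [hV]; exact hW
  have key : Q n * (9 * (n - 1) / 8 + 3 + T) + 6 * W * (Cf y ^ 2 - n) < 6 * W ^ 2 := by
    have a1 := C0_lower hn
    have a2 := C0_lower' hn
    have a3 := Cf_le (y := y) (by linarith) hy.2
    have a4 : 9 * y0 n ^ 2 ≤ y ^ 2 := by nlinarith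
    have a5 : 9 * Cf y ^ 2 ≤ Cf (y0 n) ^ 2 + 1 := by
      apply le_of_mul_le_mul_right _ (pow_pos hy0 2)
      nlinarith [sq_nonneg (Cf y)]
    have a6 : 3601 / 10000 * ((n : ℝ) + 1) ^ 2 - 1 ≤ W - (Cf y ^ 2 - n) := by
      rw [hV]; nlinarith
    have a7 : 4052 / 10000 * ((n : ℝ) + 1) ^ 2 - (n + 1) ≤ W := by rw [hV]; linarith
    have a8 : (4052 / 10000 * ((n : ℝ) + 1) ^ 2 - (n + 1)) * (3601 / 10000 * ((n : ℝ) + 1) ^ 2 - 1)
        ≤ W * (W - (Cf y ^ 2 - n)) :=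
      mul_le_mul a7 a6 (by nlinarith) hW'.le
    have a9 : Q n * (9 * (n - 1) / 8 + 3 + T) ≤ Q n * (9 * (n - 1) / 8 + 3 + n) :=
      mul_le_mul_of_nonneg_left (by linarith) hQ.le
    have a10 : Q n * (9 * (n - 1) / 8 + 3 + n) < 6 * ((4052 / 10000 * ((n : ℝ) + 1) ^ 2 - (n + 1))
        * (3601 / 10000 * ((n : ℝ) + 1) ^ 2 - 1)) := by
      rw [Q_eq]
      obtain ⟨m, hm⟩ : ∃ m : ℝ, (n : ℝ) = 3 + m := ⟨n - 3, by ring⟩
      have hm0 : 0 ≤ m := by linarith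
      rw [hm]
      nlinarith [pow_nonneg hm0 2, pow_nonneg hm0 3, pow_nonneg hm0 4]
    nlinarith
  rw [div_lt_one (by norm_num), div_mul_eq_mul_div, div_lt_iff₀ (by positivity)]
  refine lt_of_eq_of_lt ?_ (lt_of_lt_of_eq key (by ring))
  have hQ' := hQ.ne'
  field_simp
  linear_combination (384 * W * (Cf y ^ 2 - n) + Q n * (192 + 64 * T)) * hσ2

end Pool.Agent.Lib.MP_4b13b5_an.C73
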