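import Pool.Agent.Lib.MP_4b13b5_an.C73_Curv

set_option autoImplicit false
open Matrix Set Filter Topology

namespace Pool.Agent.Lib.MP_4b13b5_an.C73

noncomputable def RR {n : ℕ} (θ A B : ℝ) (c s : Fin n → ℝ) : Matrix (Fin n) (Fin n) ℝ :=
  θ • (1 : Matrix (Fin n) (Fin n) ℝ) + A • vecMulVec c c + B • vecMulVec s s

lemma RR_mulVec {n : ℕ} (θ A B : ℝ) (c s v : Fin n → ℝ) :
    RR θ A B c s *ᵥ v = θ • v + (A * (c ⬝ᵥ v)) • c + (B * (s ⬝ᵥ v)) • s := by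
  simp only [RR, add_mulVec, smul_mulVec, one_mulVec, vecMulVec_mulVec, op_smul_eq_smul, smul_smul]

lemma RR_posDef {n : ℕ} {θ A B : ℝ} (hθ : 0 < θ) (hA : 0 ≤ A) (hB : 0 ≤ B) (c s : Fin n → ℝ) :
    (RR θ A B c s).PosDef := by
  apply Matrix.PosDef.of_dotProduct_mulVec_pos
  · ext i j
    simp [RR, vecMulVec_apply, one_apply, eq_comm, mul_comm]
  · intro x hx
    rw [star_trivial, RR_mulVec]
    simp only [dotProduct_add, dotProduct_smul, smul_eq_mul, dotProduct_comm x c,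
      dotProduct_comm x s]
    have h1 : 0 < x ⬝ᵥ x :=
      (dot_nonneg x).lt_of_ne' fun h => hx (dotProduct_self_eq_zero.mp h)
    have h2 := mul_nonneg hA (mul_self_nonneg (c ⬝ᵥ x))
    have h3 := mul_nonneg hB (mul_self_nonneg (s ⬝ᵥ x))
    nlinarith [mul_pos hθ h1]

noncomputable def st (n : ℕ) (θ : ℝ) : Fin n → ℝ := fun j => xi n j * Real.sinc (xi n j * θ)

lemma st_anti (n : ℕ) (θ : ℝ) : Anti (st n θ) := by
  intro j
  unfold st
  rw [xi_anti, neg_mul (xi n j) θ, Real.sinc_neg, neg_mul]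

lemma st_mul (n : ℕ) (θ : ℝ) (j : Fin n) : θ * st n θ j = sv n θ j := by
  unfold st sv
  by_cases h : xi n j * θ = 0
  · rw [h, Real.sinc_zero, Real.sin_zero, mul_one, mul_comm, h]
  · rw [Real.sinc_of_ne_zero h, ← mul_assoc, mul_comm θ, mul_div_cancel₀ _ h]

lemma RR_toep (n : ℕ) {θ : ℝ} (hθ : θ ≠ 0) :
    Toep (RR θ (θ ^ 3)⁻¹ θ⁻¹ (cv n θ) (st n θ)) := by
  refine ⟨fun k => (if k = 0 then θ else 0) + (θ ^ 3)⁻¹ * Real.cos (2 * k * θ), fun i j => ?_⟩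
  have e1 : Real.cos (2 * (((i.val : ℤ) - (j.val : ℤ)).natAbs : ℝ) * θ)
      = cv n θ i * cv n θ j + sv n θ i * sv n θ j := by
    unfold cv sv
    rw [← Real.cos_sub, Nat.cast_natAbs, Int.cast_abs, ← Real.cos_abs, ← Real.cos_abs (_ - _)]
    congr 1
    have : xi n i * θ - xi n j * θ = -2 * ((i.val : ℝ) - j.val) * θ := by unfold xi; ring
    rw [this]
    simp [abs_mul]
  have e2 : (((i.val : ℤ) - (j.val : ℤ)).natAbs = 0) ↔ i = j := by
    rw [Fin.ext_iff]; omega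
  simp only [RR, Matrix.add_apply, Matrix.smul_apply, vecMulVec_apply, one_apply, smul_eq_mul,
    e1, e2, ← st_mul, mul_ite, mul_one, mul_zero]
  field_simp
  ring

noncomputable def dd {n : ℕ} (θ D : ℝ) (c p : Fin n → ℝ) : Fin n → ℝ :=
  (1 + θ)⁻¹ • (p - (c ⬝ᵥ p / (D * (1 + θ) + c ⬝ᵥ c)) • c)

lemma dd_eq {n : ℕ} {θ D : ℝ} (hθ : 0 < θ) (hD : 0 < D) (c p : Fin n → ℝ) :
    dd θ D c p + θ • dd θ D c p + (D⁻¹ * (c ⬝ᵥ dd θ D c p)) • c = p := by
  have := dot_nonneg c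
  funext j
  simp only [dd, dotProduct_smul, dotProduct_sub, smul_eq_mul, Pi.add_apply, Pi.smul_apply,
    Pi.sub_apply]
  field_simp
  ring

lemma dd_cont {n : ℕ} {D : ℝ → ℝ} {c : ℝ → Fin n → ℝ} (p v : Fin n → ℝ) (hD : Continuous D)
    (hc : Continuous c) (h0 : D 0 = 0) (h1 : c 0 ⬝ᵥ c 0 ≠ 0) :
    Tendsto (fun θ => (p - dd θ (D θ) (c θ) p) ⬝ᵥ v) (𝓝 0)
      (𝓝 (c 0 ⬝ᵥ p / (c 0 ⬝ᵥ c 0) * (c 0 ⬝ᵥ v))) := by
  have a1 : Continuous fun θ => c θ ⬝ᵥ p := hc.dotProduct continuous_const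
  have a2 : Continuous fun θ => c θ ⬝ᵥ c θ := hc.dotProduct hc
  have a3 : Continuous fun θ => c θ ⬝ᵥ v := hc.dotProduct continuous_const
  have : ContinuousAt (fun θ => p ⬝ᵥ v - (1 + θ)⁻¹ * (p ⬝ᵥ v
      - c θ ⬝ᵥ p / (D θ * (1 + θ) + c θ ⬝ᵥ c θ) * (c θ ⬝ᵥ v))) 0 :=
    continuousAt_const.sub ((ContinuousAt.inv₀ (by fun_prop) (by simp)).mul (continuousAt_const.sub
      ((ContinuousAt.div a1.continuousAt (by fun_prop) (by simpa [h0] using h1)).mul
        a3.continuousAt)))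
  simpa [ContinuousAt, h0, dd] using this

lemma non_mem {n : ℕ} (hn : 3 ≤ n) {p q : Fin n → ℝ} (hp : Sym p) (hq : Anti q) {y : ℝ}
    (hc : Real.cos (((n : ℝ) + 1) * y) ≠ 0) (hs : Real.sin (((n : ℝ) + 1) * y) ≠ 0)
    (h1 : one n ⬝ᵥ p / n * U n y = -Real.cos (((n : ℝ) + 1) * y))
    (h2 : xi n ⬝ᵥ q / Q n * V n y = -Real.sin (((n : ℝ) + 1) * y)) :
    ¬ ∀ᶠ z : ℝ × ℝ in 𝓝 (1, 1), z.1 • p + z.2 • q ∈ SS n := by
  intro h
  have h3 : (3 : ℝ) ≤ n := by exact_mod_cast hn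
  have c0 : cv n 0 = one n := by funext j; simp [cv, one]
  have s0 : st n 0 = xi n := by funext j; simp [st]
  have hst : Continuous (st n) := by
    have := Real.continuous_sinc
    unfold st; fun_prop
  have tA := dd_cont (D := fun θ => θ ^ 3) p (cv n y) (by fun_prop) (cv_cont n) (by simp)
    (by rw [c0, one_dot]; linarith)
  have tB := dd_cont (D := fun θ => θ) q (sv n y) (by fun_prop) hst rfl
    (by rw [s0]; exact (Q_pos hn).ne')
  rw [c0, one_dot] at tA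
  rw [s0] at tB
  replace tA := h1 ▸ tA
  replace tB := h2 ▸ tB
  have tα := (tendsto_const_nhds (x := -Real.cos (((n : ℝ) + 1) * y))).div tA (neg_ne_zero.mpr hc)
  have tβ := (tendsto_const_nhds (x := -Real.sin (((n : ℝ) + 1) * y))).div tB (neg_ne_zero.mpr hs)
  rw [div_self (neg_ne_zero.mpr hc)] at tα
  rw [div_self (neg_ne_zero.mpr hs)] at tβ
  have e1 := ((tα.prodMk_nhds tβ).eventually h).and
    ((tA.eventually_ne (neg_ne_zero.mpr hc)).and (tB.eventually_ne (neg_ne_zero.mpr hs)))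
  obtain ⟨θ, ⟨hm, hA, hB⟩, hθ⟩ :=
    ((e1.filter_mono (nhdsWithin_le_nhds (s := Ioi 0))).and self_mem_nhdsWithin).exists
  have hθ' : 0 < θ := hθ
  simp only [Pi.div_apply] at hm
  set dP := dd θ (θ ^ 3) (cv n θ) p with hdP
  set dQ := dd θ θ (st n θ) q with hdQ
  set α := -Real.cos (((n : ℝ) + 1) * y) / ((p - dP) ⬝ᵥ cv n y) with hα
  set β := -Real.sin (((n : ℝ) + 1) * y) / ((q - dQ) ⬝ᵥ sv n y) with hβ
  have sP : Sym dP := fun j => by
    simp only [hdP, dd, Pi.smul_apply, Pi.sub_apply, hp j, cv_sym n θ j]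
  have sQ : Anti dQ := fun j => by
    simp only [hdQ, dd, Pi.smul_apply, Pi.sub_apply, hq j, st_anti n θ j, smul_eq_mul]; ring
  have hR := RR_posDef hθ' (inv_nonneg.mpr (pow_pos hθ' 3).le) (inv_nonneg.mpr hθ'.le)
    (cv n θ) (st n θ)
  refine not_stab _ y ?_ ?_ (hm.2 _ hR (RR_toep n hθ'.ne'))
  all_goals
    set R := RR θ (θ ^ 3)⁻¹ θ⁻¹ (cv n θ) (st n θ) with hRe
    have eP : R *ᵥ dP = p - dP := by
      rw [hRe, RR_mulVec, dotProduct_comm (st n θ), sym_anti sP (st_anti n θ), mul_zero, zero_smul,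
        add_zero, eq_sub_iff_add_eq', ← add_assoc]
      exact dd_eq hθ' (pow_pos hθ' 3) _ _
    have eQ : R *ᵥ dQ = q - dQ := by
      rw [hRe, RR_mulVec, sym_anti (cv_sym n θ) sQ, mul_zero, zero_smul, add_zero,
        eq_sub_iff_add_eq', ← add_assoc]
      exact dd_eq hθ' hθ' _ _
    obtain ⟨c, -, h5, h6⟩ := solve hR (α • p + β • q)
    have h7 := h6 (α • dP + β • dQ) (by
      rw [mulVec_add, mulVec_smul, mulVec_smul, eP, eQ]; module)
    rw [h5, ← h7, mulVec_add, mulVec_smul, mulVec_smul, eP, eQ, add_dotProduct, smul_dotProduct,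
      smul_dotProduct, smul_eq_mul, smul_eq_mul]
  · have : Anti (q - dQ) := fun j => by simp only [Pi.sub_apply, hq j, sQ j]; ring
    rw [dotProduct_comm (q - dQ), sym_anti (cv_sym n y) this, hα, div_mul_cancel₀ _ hA]
    ring
  · have : Sym (p - dP) := fun j => by simp only [Pi.sub_apply, hp j, sP j]
    rw [sym_anti this (sv_anti n y), hβ, div_mul_cancel₀ _ hB]
    ring

lemma one_pp {n : ℕ} (hn : 3 ≤ n) {y : ℝ} (h : U n y ≠ 0) :
    one n ⬝ᵥ pp n y = -Real.cos (((n : ℝ) + 1) * y) / U n y * n := by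
  have h3 : (3 : ℝ) ≤ n := by exact_mod_cast hn
  have : (n : ℝ) ≠ 0 := by linarith
  have e : one n ⬝ᵥ cv n y = U n y := rfl
  simp only [pp, ph, mu, dotProduct_smul, dotProduct_sub, one_dot, e, smul_eq_mul]
  field_simp
  ring

lemma xi_qq {n : ℕ} (hn : 3 ≤ n) {y : ℝ} (h : V n y ≠ 0) :
    xi n ⬝ᵥ qq n y = -(Real.sin (((n : ℝ) + 1) * y) / V n y * Q n) := by
  have := (Q_pos hn).ne'
  have e : xi n ⬝ᵥ sv n y = V n y := rfl
  have e' : xi n ⬝ᵥ xi n = Q n := rfl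
  simp only [qq, qh, nu, dotProduct_smul, dotProduct_sub, e, e', smul_eq_mul]
  field_simp
  ring

/-- From dimension three on the set is not convex. -/
theorem not_convex {n : ℕ} (hn : 3 ≤ n) : ¬ Convex ℝ (SS n) := by
  intro hcv
  have h3 : (3 : ℝ) ≤ n := by exact_mod_cast hn
  have m0 := (mem_ev hn).self_of_nhdsWithin self_mem_Ici
  obtain ⟨y₂, ⟨hU, hV, y₁, s₁, s₂, a1, a2, a3, a4, a5, a6, a7⟩, m2⟩ := ((curv hn).and
    ((mem_ev hn).filter_mono (nhdsWithin_mono _ Ioi_subset_Ici_self))).exists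
  have hq : Anti (s₁ • qq n (y0 n) + s₂ • qq n y₂) := fun j => by
    rw [Pi.add_apply, Pi.add_apply, qq_anti, qq_anti]; ring
  refine non_mem hn (pp_sym n y₂ s₂) hq a4 a5 ?_ ?_ ?_
  · have : (n : ℝ) ≠ 0 := by linarith
    rw [a6, dotProduct_smul, one_pp hn hU, smul_eq_mul]
    field_simp
  · have := (Q_pos hn).ne'
    rw [a7, dotProduct_add, dotProduct_smul, dotProduct_smul, xi_qq hn hV,
      xi_qq hn (V0_pos hn).ne', sin_y0, smul_eq_mul, smul_eq_mul]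
    field_simp
    ring
  · obtain ⟨η, hη⟩ : ∃ η, η = (1 - (s₁ + s₂)) / 2 := ⟨_, rfl⟩
    have hη0 : 0 < η := by rw [hη]; linarith
    have ev : ∀ s : ℝ, 0 ≤ s → ∀ᶠ x in 𝓝 (1 : ℝ), x * s / (s + η) ∈ Ico (0 : ℝ) 1 := by
      intro s hs
      have c : ContinuousAt (fun x : ℝ => x * s) 1 := by fun_prop
      filter_upwards [lt_mem_nhds one_pos, c.eventually (gt_mem_nhds
        (show (1 : ℝ) * s < s + η by linarith))] with x h1 h2
      exact ⟨by positivity, (div_lt_one (by positivity)).mpr h2⟩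
    rw [nhds_prod_eq]
    filter_upwards [(ev s₂ a2).prod_mk ((ev s₁ a1).and (ev s₂ a2))] with z ⟨b1, b2, b3⟩
    have := hcv (m0 0 ⟨le_rfl, one_pos⟩ _ b2) (m2 _ b1 _ b3) (a := s₁ + η) (b := s₂ + η)
      (by positivity) (by positivity) (by rw [hη]; ring)
    convert this using 1
    have c1 : s₁ + η ≠ 0 := by positivity
    have c2 : s₂ + η ≠ 0 := by positivity
    funext j
    simp only [Pi.add_apply, Pi.smul_apply, smul_eq_mul]
    field_simp
    ring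

end Pool.Agent.Lib.MP_4b13b5_an.C73
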