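import Pool.Agent.Lib.MP_4b13b5_an.C73_Defs

set_option autoImplicit false
open Matrix Set Filter Topology

namespace Pool.Agent.Lib.MP_4b13b5_an.C73

def Sym {n : ℕ} (p : Fin n → ℝ) : Prop := ∀ j : Fin n, p j.rev = p j
def Anti {n : ℕ} (q : Fin n → ℝ) : Prop := ∀ j : Fin n, q j.rev = -q j

lemma xi_anti (n : ℕ) : Anti (xi n) := by
  intro j
  unfold xi
  rw [Fin.val_rev, Nat.cast_sub (by omega)]
  push_cast
  ring

lemma cv_sym (n : ℕ) (y : ℝ) : Sym (cv n y) := by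
  intro j
  unfold cv
  rw [xi_anti, neg_mul, Real.cos_neg]

lemma sv_anti (n : ℕ) (y : ℝ) : Anti (sv n y) := by
  intro j
  unfold sv
  rw [xi_anti, neg_mul, Real.sin_neg]

lemma sym_anti {n : ℕ} {p q : Fin n → ℝ} (hp : Sym p) (hq : Anti q) : p ⬝ᵥ q = 0 := by
  have h : p ⬝ᵥ q = -(p ⬝ᵥ q) := by
    unfold dotProduct
    conv_lhs => rw [← Equiv.sum_comp Fin.revPerm]
    rw [← Finset.sum_neg_distrib]
    refine Finset.sum_congr rfl fun j _ => ?_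
    rw [Fin.revPerm_apply, hp, hq]
    ring
  linarith

lemma toep_rev {n : ℕ} {R : Matrix (Fin n) (Fin n) ℝ} (hT : Toep R) (v : Fin n → ℝ) :
    R *ᵥ (fun j => v j.rev) = fun i => (R *ᵥ v) i.rev := by
  obtain ⟨r, hr⟩ := hT
  funext i
  simp only [mulVec, dotProduct]
  rw [← Equiv.sum_comp Fin.revPerm]
  refine Finset.sum_congr rfl fun j _ => ?_
  rw [Fin.revPerm_apply, Fin.rev_rev, hr, hr, Fin.val_rev, Fin.val_rev]
  congr 2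
  omega

lemma solve {n : ℕ} {R : Matrix (Fin n) (Fin n) ℝ} (hR : R.PosDef) (a : Fin n → ℝ) :
    ∃ c : Fin n → ℝ, a = c + R *ᵥ c ∧ (R * (1 + R)⁻¹) *ᵥ a = R *ᵥ c ∧
      ∀ c' : Fin n → ℝ, a = c' + R *ᵥ c' → c' = c := by
  have hu : IsUnit (1 + R) := (Matrix.PosDef.one.add hR).isUnit
  have hdet : IsUnit (1 + R).det := (Matrix.isUnit_iff_isUnit_det _).mp hu
  refine ⟨(1 + R)⁻¹ *ᵥ a, ?_, ?_, ?_⟩
  · have : (1 + R) *ᵥ ((1 + R)⁻¹ *ᵥ a) = a := by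
      rw [Matrix.mulVec_mulVec, Matrix.mul_nonsing_inv _ hdet, Matrix.one_mulVec]
    rw [Matrix.add_mulVec, Matrix.one_mulVec] at this
    exact this.symm
  · rw [Matrix.mulVec_mulVec]
  · intro c' hc'
    have : a = (1 + R) *ᵥ c' := by rw [Matrix.add_mulVec, Matrix.one_mulVec]; exact hc'
    rw [this, Matrix.mulVec_mulVec, Matrix.nonsing_inv_mul _ hdet, Matrix.one_mulVec]

lemma th_aux {n : ℕ} {R : Matrix (Fin n) (Fin n) ℝ} (hR : R.PosDef) (d : Fin n → ℝ) :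
    (R *ᵥ d) ⬝ᵥ (R *ᵥ d) ≤ (R *ᵥ d) ⬝ᵥ (d + R *ᵥ d) := by
  have h := hR.posSemidef.dotProduct_mulVec_nonneg d
  rw [star_trivial, dotProduct_comm] at h
  rw [dotProduct_add]
  linarith

lemma thales {n : ℕ} {R : Matrix (Fin n) (Fin n) ℝ} (hR : R.PosDef) (hT : Toep R)
    {p q : Fin n → ℝ} (hp : Sym p) (hq : Anti q) :
    ∃ β γ : Fin n → ℝ, (R * (1 + R)⁻¹) *ᵥ (p + q) = β + γ ∧ Sym β ∧ Anti γ ∧
      β ⬝ᵥ β ≤ β ⬝ᵥ p ∧ γ ⬝ᵥ γ ≤ γ ⬝ᵥ q := by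
  obtain ⟨d, h1, h2, -⟩ := solve hR (p + q)
  set d' : Fin n → ℝ := fun j => d j.rev with hd'
  have hr : R *ᵥ d' = fun i => (R *ᵥ d) i.rev := toep_rev hT d
  have h3 : ∀ i, p i + q i = d i + (R *ᵥ d) i := fun i => congrFun h1 i
  have h4 : ∀ i, p i - q i = d' i + (R *ᵥ d') i := by
    intro i
    have := h3 i.rev
    rw [hp, hq] at this
    rw [hr]
    simp only [hd']
    linarith
  have e1 : p = (1 / 2 : ℝ) • (d + d') + R *ᵥ ((1 / 2 : ℝ) • (d + d')) := by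
    funext i
    simp only [mulVec_smul, mulVec_add, Pi.add_apply, Pi.smul_apply, smul_eq_mul]
    linarith [h3 i, h4 i]
  have e2 : q = (1 / 2 : ℝ) • (d - d') + R *ᵥ ((1 / 2 : ℝ) • (d - d')) := by
    funext i
    simp only [mulVec_smul, mulVec_sub, Pi.add_apply, Pi.sub_apply, Pi.smul_apply, smul_eq_mul]
    linarith [h3 i, h4 i]
  refine ⟨R *ᵥ ((1 / 2 : ℝ) • (d + d')), R *ᵥ ((1 / 2 : ℝ) • (d - d')), ?_, ?_, ?_, ?_, ?_⟩
  · rw [h2]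
    funext i
    simp only [mulVec_smul, mulVec_add, mulVec_sub, Pi.add_apply, Pi.sub_apply, Pi.smul_apply,
      smul_eq_mul]
    ring
  · intro i
    simp only [mulVec_smul, mulVec_add, hr, Pi.add_apply, Pi.smul_apply, smul_eq_mul, Fin.rev_rev]
    ring
  · intro i
    simp only [mulVec_smul, mulVec_sub, hr, Pi.sub_apply, Pi.smul_apply, smul_eq_mul, Fin.rev_rev]
    ring
  · conv_rhs => rw [e1]
    exact th_aux hR _
  · conv_rhs => rw [e2]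
    exact th_aux hR _

lemma dot_nonneg {n : ℕ} (v : Fin n → ℝ) : 0 ≤ v ⬝ᵥ v :=
  Finset.sum_nonneg fun j _ => mul_self_nonneg (v j)

lemma stab_of_th {n : ℕ} {p q β γ : Fin n → ℝ} (hβ : Sym β) (hγ : Anti γ)
    (h1 : β ⬝ᵥ β ≤ β ⬝ᵥ p) (h2 : γ ⬝ᵥ γ ≤ γ ⬝ᵥ q)
    (h : ∀ y ∈ Icc (0 : ℝ) (Real.pi / 2),
      (∀ β : Fin n → ℝ, β ⬝ᵥ β ≤ β ⬝ᵥ p → Real.cos (((n : ℝ) + 1) * y) + β ⬝ᵥ cv n y ≠ 0) ∨
      (∀ γ : Fin n → ℝ, γ ⬝ᵥ γ ≤ γ ⬝ᵥ q → Real.sin (((n : ℝ) + 1) * y) + γ ⬝ᵥ sv n y ≠ 0)) :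
    Stab (β + γ) := by
  have key : ∀ (s : ℝ) (v w : Fin n → ℝ), s ∈ Icc (0 : ℝ) 1 → v ⬝ᵥ v ≤ v ⬝ᵥ w →
      (s • v) ⬝ᵥ (s • v) ≤ (s • v) ⬝ᵥ w := by
    intro s v w hs hv
    simp only [smul_dotProduct, dotProduct_smul, smul_eq_mul]
    apply mul_le_mul_of_nonneg_left _ hs.1
    have := dot_nonneg v
    nlinarith [hs.2]
  apply stab_of_circle
  intro s hs y hy ⟨hc, hsn⟩
  rw [add_dotProduct, dotProduct_comm γ, sym_anti (cv_sym n y) hγ, add_zero] at hc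
  rw [add_dotProduct, sym_anti hβ (sv_anti n y), zero_add] at hsn
  rcases h y hy with h' | h'
  · exact h' (s • β) (key s β p hs h1) (by rw [smul_dotProduct]; exact hc)
  · exact h' (s • γ) (key s γ q hs h2) (by rw [smul_dotProduct]; exact hsn)

/-- The membership criterion. -/
lemma mem_of {n : ℕ} {p q : Fin n → ℝ} (hp : Sym p) (hq : Anti q)
    (h : ∀ y ∈ Icc (0 : ℝ) (Real.pi / 2),
      (∀ β : Fin n → ℝ, β ⬝ᵥ β ≤ β ⬝ᵥ p → Real.cos (((n : ℝ) + 1) * y) + β ⬝ᵥ cv n y ≠ 0) ∨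
      (∀ γ : Fin n → ℝ, γ ⬝ᵥ γ ≤ γ ⬝ᵥ q → Real.sin (((n : ℝ) + 1) * y) + γ ⬝ᵥ sv n y ≠ 0)) :
    p + q ∈ SS n := by
  refine ⟨stab_of_th hp hq le_rfl le_rfl h, fun R hR hT => ?_⟩
  obtain ⟨β, γ, e, hβ, hγ, h1, h2⟩ := thales hR hT hp hq
  rw [e]
  exact stab_of_th hβ hγ h1 h2 h

/-- A linear functional on a ball with a diameter from the origin. -/
lemma ball_bound {n : ℕ} {β w : Fin n → ℝ} (e : Fin n → ℝ) {m κ : ℝ} (hm : 0 ≤ m) (hκ : 0 < κ)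
    (h : β ⬝ᵥ β ≤ m * (β ⬝ᵥ w)) :
    β ⬝ᵥ e ≤ m * ((κ • w + e) ⬝ᵥ (κ • w + e)) / (4 * κ) := by
  rcases hm.eq_or_lt with h0 | h0
  · rw [← h0, zero_mul] at h
    have hb : β = 0 := dotProduct_self_eq_zero.mp (le_antisymm h (dot_nonneg β))
    rw [hb, ← h0]
    simp
  · set v := κ • w + e with hv
    have h1 := dot_nonneg ((2 * κ) • β - m • v)
    have h2 : β ⬝ᵥ v = κ * (β ⬝ᵥ w) + β ⬝ᵥ e := by
      rw [hv, dotProduct_add, dotProduct_smul, smul_eq_mul]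
    simp only [sub_dotProduct, dotProduct_sub, smul_dotProduct, dotProduct_smul, smul_eq_mul,
      dotProduct_comm v β] at h1
    rw [h2] at h1
    rw [le_div_iff₀ (by positivity)]
    have h3 : 0 ≤ 4 * κ ^ 2 * (m * (β ⬝ᵥ w) - β ⬝ᵥ β) :=
      mul_nonneg (by positivity) (by linarith)
    apply le_of_mul_le_mul_left _ h0
    nlinarith

end Pool.Agent.Lib.MP_4b13b5_an.C73
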