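import Pool.Agent.Lib.MP_4b13b5_an.C73_Thales

set_option autoImplicit false
open Matrix Set Filter Topology

namespace Pool.Agent.Lib.MP_4b13b5_an.C73

noncomputable def one (n : ℕ) : Fin n → ℝ := fun _ => 1
noncomputable def U (n : ℕ) (y : ℝ) : ℝ := one n ⬝ᵥ cv n y
noncomputable def V (n : ℕ) (y : ℝ) : ℝ := xi n ⬝ᵥ sv n y
noncomputable def Q (n : ℕ) : ℝ := xi n ⬝ᵥ xi n

lemma one_sym (n : ℕ) : Sym (one n) := fun _ => rfl

lemma one_dot (n : ℕ) : one n ⬝ᵥ one n = n := by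
  simp [one, dotProduct]

lemma U_mul_sin (n : ℕ) (y : ℝ) : U n y * Real.sin y = Real.sin (n * y) := by
  have h : ∀ j : ℕ, Real.cos (((n : ℝ) - 1 - 2 * (j : ℝ)) * y) * Real.sin y
      = Real.sin (((n : ℝ) - 2 * (j : ℝ)) * y) / 2
        - Real.sin (((n : ℝ) - 2 * ((j + 1 : ℕ) : ℝ)) * y) / 2 := by
    intro j
    have e1 : ((n : ℝ) - 2 * (j : ℝ)) * y = ((n : ℝ) - 1 - 2 * (j : ℝ)) * y + y := by ring
    have e2 : ((n : ℝ) - 2 * ((j + 1 : ℕ) : ℝ)) * y = ((n : ℝ) - 1 - 2 * (j : ℝ)) * y - y := by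
      push_cast; ring
    rw [e1, e2, Real.sin_add, Real.sin_sub]
    ring
  unfold U one cv xi dotProduct
  simp only [one_mul]
  rw [Fin.sum_univ_eq_sum_range (fun j : ℕ => Real.cos (((n : ℝ) - 1 - 2 * (j : ℝ)) * y)) n,
    Finset.sum_mul, Finset.sum_congr rfl fun j _ => h j,
    Finset.sum_range_sub' (fun j : ℕ => Real.sin (((n : ℝ) - 2 * (j : ℝ)) * y) / 2)]
  have e : ((n : ℝ) - 2 * (n : ℝ)) * y = -(n * y) := by ring
  rw [e, Real.sin_neg]
  simp only [Nat.cast_zero, mul_zero, sub_zero]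
  ring

lemma cv_deriv (n : ℕ) (y : ℝ) (j : Fin n) :
    HasDerivAt (fun y => cv n y j) (-(xi n j * sv n y j)) y := by
  unfold cv sv
  have := ((hasDerivAt_id y).const_mul (xi n j)).cos
  simp only [id, mul_one] at this
  convert this using 1
  ring

lemma sv_deriv (n : ℕ) (y : ℝ) (j : Fin n) :
    HasDerivAt (fun y => sv n y j) (xi n j * cv n y j) y := by
  unfold cv sv
  have := ((hasDerivAt_id y).const_mul (xi n j)).sin
  simp only [id, mul_one] at this
  convert this using 1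
  ring

lemma U_deriv (n : ℕ) (y : ℝ) : HasDerivAt (U n) (-V n y) y := by
  have := HasDerivAt.fun_sum (u := Finset.univ) fun j _ => cv_deriv n y j
  have e1 : U n = fun y => ∑ j, cv n y j := by
    funext y; simp [U, one, dotProduct]
  have e2 : -V n y = ∑ j, -(xi n j * sv n y j) := by simp [V, dotProduct]
  rw [e1, e2]
  exact this

lemma V_mul_sin (n : ℕ) (y : ℝ) :
    V n y * Real.sin y = U n y * Real.cos y - n * Real.cos (n * y) := by
  have h1 := (U_deriv n y).mul (Real.hasDerivAt_sin y)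
  have h2 := ((hasDerivAt_id y).const_mul (n : ℝ)).sin
  have e : (U n * Real.sin) = fun x => Real.sin (n * id x) := by
    funext x; exact U_mul_sin n x
  rw [e] at h1
  have := h1.unique h2
  simp only [id, mul_one] at this
  linarith

lemma Q_eq (n : ℕ) : Q n = n * ((n : ℝ) ^ 2 - 1) / 3 := by
  have h : ∀ (c : ℝ) (m : ℕ), ∑ j ∈ Finset.range m, (c - 2 * (j : ℝ)) * (c - 2 * (j : ℝ))
      = m * c ^ 2 - 2 * c * m * (m - 1) + 2 * (m - 1) * m * (2 * m - 1) / 3 := by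
    intro c m
    induction m with
    | zero => simp
    | succ k ih => rw [Finset.sum_range_succ, ih]; push_cast; ring
  unfold Q xi dotProduct
  rw [Fin.sum_univ_eq_sum_range
    (fun j : ℕ => ((n : ℝ) - 1 - 2 * (j : ℝ)) * ((n : ℝ) - 1 - 2 * (j : ℝ))) n, h]
  ring

lemma sv_dot (n : ℕ) (a b : ℝ) : sv n a ⬝ᵥ sv n b = (U n (a - b) - U n (a + b)) / 2 := by
  unfold U one sv cv dotProduct
  rw [← Finset.sum_sub_distrib, Finset.sum_div]
  refine Finset.sum_congr rfl fun j _ => ?_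
  beta_reduce
  rw [mul_sub, mul_add, Real.cos_sub, Real.cos_add]
  ring

lemma U_zero (n : ℕ) : U n 0 = n := by
  simp [U, one, cv, dotProduct]

lemma sv_dot_le (n : ℕ) (a : ℝ) : sv n a ⬝ᵥ sv n a ≤ n := by
  unfold sv dotProduct
  calc _ ≤ ∑ _j : Fin n, (1 : ℝ) := Finset.sum_le_sum fun j _ => by
          nlinarith [Real.sin_sq_le_one (xi n j * a)]
    _ = n := by simp

lemma cv_cont (n : ℕ) : Continuous (cv n) := by
  unfold cv; fun_prop

lemma sv_cont (n : ℕ) : Continuous (sv n) := by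
  unfold sv; fun_prop

lemma U_cont (n : ℕ) : Continuous (U n) := continuous_const.dotProduct (cv_cont n)
lemma V_cont (n : ℕ) : Continuous (V n) := continuous_const.dotProduct (sv_cont n)

noncomputable def Cf (y : ℝ) : ℝ := Real.cos y / Real.sin y
noncomputable def uf (n : ℕ) (y : ℝ) : ℝ :=
  -Real.cos (((n : ℝ) + 1) * y) / Real.sin (((n : ℝ) + 1) * y)
noncomputable def Wf (n : ℕ) (y : ℝ) : ℝ := Cf y ^ 2 - n + ((n : ℝ) + 1) * Cf y * uf n y

lemma U_eq (n : ℕ) {y : ℝ} (h1 : Real.sin y ≠ 0) :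
    U n y = Real.sin (((n : ℝ) + 1) * y) * Cf y - Real.cos (((n : ℝ) + 1) * y) := by
  have e : (n : ℝ) * y = ((n : ℝ) + 1) * y - y := by ring
  have := U_mul_sin n y
  rw [e, Real.sin_sub] at this
  unfold Cf
  field_simp
  linarith

lemma V_eq (n : ℕ) {y : ℝ} (h1 : Real.sin y ≠ 0) :
    V n y = Real.sin (((n : ℝ) + 1) * y) * (Cf y ^ 2 - n)
      - ((n : ℝ) + 1) * Cf y * Real.cos (((n : ℝ) + 1) * y) := by
  have e : (n : ℝ) * y = ((n : ℝ) + 1) * y - y := by ring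
  have := V_mul_sin n y
  rw [e, Real.cos_sub, U_eq n h1] at this
  have hc : Real.cos y = Cf y * Real.sin y := by unfold Cf; field_simp
  apply mul_right_cancel₀ h1
  rw [this, hc]
  ring

lemma U_eq' (n : ℕ) {y : ℝ} (h1 : Real.sin y ≠ 0) (h2 : Real.sin (((n : ℝ) + 1) * y) ≠ 0) :
    U n y = Real.sin (((n : ℝ) + 1) * y) * (Cf y + uf n y) := by
  rw [U_eq n h1]; unfold uf; field_simp; ring

lemma V_eq' (n : ℕ) {y : ℝ} (h1 : Real.sin y ≠ 0) (h2 : Real.sin (((n : ℝ) + 1) * y) ≠ 0) :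
    V n y = Real.sin (((n : ℝ) + 1) * y) * Wf n y := by
  rw [V_eq n h1]; unfold Wf uf; field_simp; ring

end Pool.Agent.Lib.MP_4b13b5_an.C73
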