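import Mathlib

set_option autoImplicit false
open Matrix

namespace Pool.Agent.Lib.MP_4b13b5_an

/-- Routh-Hurwitz sufficiency for real quartics. -/
lemma hurwitz (c0 c1 c2 c3 c4 : ℝ) (h0 : 0 < c0) (h1 : 0 < c1) (h3 : 0 < c3) (h4 : 0 ≤ c4)
    (hD : 0 < c1 * c2 * c3 - c0 * c3 ^ 2 - c4 * c1 ^ 2) (s : ℂ) (hs : 0 ≤ s.re) :
    (c4 : ℂ) * s ^ 4 + c3 * s ^ 3 + c2 * s ^ 2 + c1 * s + c0 ≠ 0 := by
  intro h
  set D : ℝ := c1 * c2 * c3 - c0 * c3 ^ 2 - c4 * c1 ^ 2 with hDdef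
  set W : ℂ := c3 * s ^ 2 + c1 with hW
  have hDc : (D : ℂ) = c1 * c2 * c3 - c0 * c3 ^ 2 - c4 * c1 ^ 2 := by
    rw [hDdef]; push_cast; ring
  have key : (c1 : ℂ) * c3 * (s * W) + c1 * c4 * s * (s * W) + c0 * c3 * W + D * s ^ 2 = 0 := by
    rw [hDc, hW]; linear_combination (c1 * c3 : ℂ) * h
  have hre := congrArg Complex.re key
  have him := congrArg Complex.im key
  set x := s.re with hx
  set y := s.im with hy
  set u := W.re with hu
  set v := W.im with hv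
  have hu' : u = c3 * (x ^ 2 - y ^ 2) + c1 := by
    rw [hu, hW]; simp [pow_two, ← hx, ← hy]
  have hv' : v = c3 * (2 * x * y) := by
    rw [hv, hW]; simp [pow_two, ← hx, ← hy]; left; ring
  simp only [pow_two, Complex.add_re, Complex.mul_re, Complex.ofReal_re, Complex.ofReal_im,
    Complex.add_im, Complex.mul_im, Complex.zero_re, Complex.zero_im, ← hx, ← hy, ← hu, ← hv]
    at hre him
  have hO : c1 * c3 * ((x * u - y * v) ^ 2 + (x * v + y * u) ^ 2)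
      + c1 * c4 * x * ((x * u - y * v) ^ 2 + (x * v + y * u) ^ 2)
      + c0 * c3 * x * (u ^ 2 + v ^ 2) + D * (x ^ 2 + y ^ 2) * (x * u + y * v) = 0 := by
    linear_combination (x * u - y * v) * hre + (x * v + y * u) * him
  have hxu : x * u + y * v = x * (c3 * (x ^ 2 + y ^ 2) + c1) := by rw [hu', hv']; ring
  have p1 : 0 ≤ c1 * c4 * x * ((x * u - y * v) ^ 2 + (x * v + y * u) ^ 2) := by positivity
  have p2 : 0 ≤ c0 * c3 * x * (u ^ 2 + v ^ 2) := by positivity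
  have p3 : 0 ≤ D * (x ^ 2 + y ^ 2) * (x * u + y * v) := by rw [hxu]; positivity
  have p0 : (x * u - y * v) ^ 2 + (x * v + y * u) ^ 2 = 0 := by
    have h13 : 0 < c1 * c3 := mul_pos h1 h3
    have : 0 ≤ (x * u - y * v) ^ 2 + (x * v + y * u) ^ 2 := by positivity
    nlinarith
  have hO0 : s * W = 0 := by
    have a1 : x * u - y * v = 0 := by nlinarith [sq_nonneg (x * u - y * v), sq_nonneg (x * v + y * u)]
    have a2 : x * v + y * u = 0 := by nlinarith [sq_nonneg (x * u - y * v), sq_nonneg (x * v + y * u)]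
    apply Complex.ext
    · simpa [← hx, ← hy, ← hu, ← hv] using a1
    · simpa [← hx, ← hy, ← hu, ← hv] using a2
  have c1ne : (c1 : ℂ) ≠ 0 := by exact_mod_cast h1.ne'
  have c0ne : (c0 : ℂ) ≠ 0 := by exact_mod_cast h0.ne'
  have Dne : (D : ℂ) ≠ 0 := by exact_mod_cast hD.ne'
  have hs0 : s ≠ 0 := by
    intro h0'
    rw [h0'] at h
    apply c0ne
    simpa using h
  have hW0 : W = 0 := by
    rcases mul_eq_zero.mp hO0 with h' | h'
    · exact absurd h' hs0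
    · exact h'
  rw [hW0] at key
  have : (D : ℂ) * s ^ 2 = 0 := by linear_combination key
  rcases mul_eq_zero.mp this with h' | h'
  · exact Dne h'
  · exact hs0 (pow_eq_zero_iff (two_ne_zero) |>.mp h')

/-- Schur stability of a real quartic from the transformed Routh-Hurwitz inequalities. -/
lemma schur (b1 b2 b3 b4 : ℝ) (h0 : 0 < 1 + b1 + b2 + b3 + b4)
    (h1 : 0 < 4 + 2 * b1 - 2 * b3 - 4 * b4) (h3 : 0 < 4 - 2 * b1 + 2 * b3 - 4 * b4)
    (h4 : 0 < 1 - b1 + b2 - b3 + b4)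
    (hD : 0 < (4 + 2 * b1 - 2 * b3 - 4 * b4) * (6 - 2 * b2 + 6 * b4) * (4 - 2 * b1 + 2 * b3 - 4 * b4)
      - (1 + b1 + b2 + b3 + b4) * (4 - 2 * b1 + 2 * b3 - 4 * b4) ^ 2
      - (1 - b1 + b2 - b3 + b4) * (4 + 2 * b1 - 2 * b3 - 4 * b4) ^ 2)
    (z : ℂ) (hz : 1 ≤ ‖z‖) :
    z ^ 4 + (b1 : ℂ) * z ^ 3 + b2 * z ^ 2 + b3 * z + b4 ≠ 0 := by
  intro h
  by_cases hz1 : z + 1 = 0
  · have hz' : z = -1 := by linear_combination hz1
    rw [hz'] at h
    have : ((1 - b1 + b2 - b3 + b4 : ℝ) : ℂ) = 0 := by push_cast; linear_combination h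
    exact h4.ne' (by exact_mod_cast this)
  · have hre : 0 ≤ ((z - 1) / (z + 1)).re := by
      rw [Complex.div_re, ← add_div]
      apply div_nonneg _ (Complex.normSq_nonneg _)
      have h2 : 1 ≤ Complex.normSq z := by
        rw [Complex.normSq_eq_norm_sq]; nlinarith
      rw [Complex.normSq_apply] at h2
      simp only [Complex.sub_re, Complex.add_re, Complex.one_re, Complex.sub_im, Complex.add_im,
        Complex.one_im]
      nlinarith
    apply hurwitz _ _ _ _ _ h0 h1 h3 h4.le hD _ hre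
    field_simp
    push_cast
    linear_combination 16 * h

/-- Negative resultant of two monic quadratics from three separating points. -/
lemma res_neg (u1 u0 v1 v0 s1 s2 s3 : ℝ) (h12 : s2 < s1) (h23 : s3 < s2)
    (P1 : s1 ^ 2 + u1 * s1 + u0 < 0) (P2 : s2 ^ 2 + u1 * s2 + u0 < 0)
    (P3 : 0 < s3 ^ 2 + u1 * s3 + u0) (Q1 : 0 < s1 ^ 2 + v1 * s1 + v0)
    (Q2 : s2 ^ 2 + v1 * s2 + v0 < 0) (Q3 : s3 ^ 2 + v1 * s3 + v0 < 0) :
    (u0 - v0) ^ 2 + (u1 - v1) * (u1 * v0 - u0 * v1) < 0 := by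
  have hk : u1 - v1 < 0 := by nlinarith
  set x := -(u0 - v0) / (u1 - v1) with hx
  have hx0 : (u1 - v1) * x + (u0 - v0) = 0 := by rw [hx]; field_simp [hk.ne]; ring
  have hx1 : x < s1 := by nlinarith
  have hx3 : s3 < x := by nlinarith
  have hPx : x ^ 2 + u1 * x + u0 < 0 := by
    rcases le_total s2 x with h | h
    · have e : (x ^ 2 + u1 * x + u0) * (s1 - s2) = (x - s2) * (s1 ^ 2 + u1 * s1 + u0)
          + (s1 - x) * (s2 ^ 2 + u1 * s2 + u0) - (s1 - x) * (x - s2) * (s1 - s2) := by ring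
      have a1 : (x - s2) * (s1 ^ 2 + u1 * s1 + u0) ≤ 0 :=
        mul_nonpos_of_nonneg_of_nonpos (by linarith) P1.le
      have a2 : (s1 - x) * (s2 ^ 2 + u1 * s2 + u0) < 0 := mul_neg_of_pos_of_neg (by linarith) P2
      have a3 : 0 ≤ (s1 - x) * (x - s2) * (s1 - s2) :=
        mul_nonneg (mul_nonneg (by linarith) (by linarith)) (by linarith)
      by_contra hc
      push Not at hc
      have : 0 ≤ (x ^ 2 + u1 * x + u0) * (s1 - s2) := mul_nonneg hc (by linarith)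
      linarith
    · have e : (x ^ 2 + v1 * x + v0) * (s2 - s3) = (x - s3) * (s2 ^ 2 + v1 * s2 + v0)
          + (s2 - x) * (s3 ^ 2 + v1 * s3 + v0) - (s2 - x) * (x - s3) * (s2 - s3) := by ring
      have a1 : (x - s3) * (s2 ^ 2 + v1 * s2 + v0) < 0 := mul_neg_of_pos_of_neg (by linarith) Q2
      have a2 : (s2 - x) * (s3 ^ 2 + v1 * s3 + v0) ≤ 0 :=
        mul_nonpos_of_nonneg_of_nonpos (by linarith) Q3.le
      have a3 : 0 ≤ (s2 - x) * (x - s3) * (s2 - s3) :=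
        mul_nonneg (mul_nonneg (by linarith) (by linarith)) (by linarith)
      have hQ : x ^ 2 + v1 * x + v0 < 0 := by
        by_contra hc
        push Not at hc
        have : 0 ≤ (x ^ 2 + v1 * x + v0) * (s2 - s3) := mul_nonneg hc (by linarith)
        linarith
      linarith
  have e : (u0 - v0) ^ 2 + (u1 - v1) * (u1 * v0 - u0 * v1)
      = (u1 - v1) ^ 2 * (x ^ 2 + u1 * x + u0) := by
    have : u0 - v0 = -((u1 - v1) * x) := by linarith
    have h2 : v0 = u0 + (u1 - v1) * x := by linarith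
    rw [h2]; ring
  rw [e]
  exact mul_neg_of_pos_of_neg (pow_pos_of_neg_even hk) hPx
where
  pow_pos_of_neg_even {t : ℝ} (ht : t < 0) : 0 < t ^ 2 := by nlinarith

/-- A linear functional is positive on a disc with diameter from the origin to (A1, A2). -/
lemma disc (A1 A2 l0 l1 l2 k p1 p2 : ℝ) (hk : 0 < k)
    (h : (l1 - k * A1) ^ 2 + (l2 - k * A2) ^ 2 < 4 * k * l0)
    (hd : 0 ≤ p1 * (A1 - p1) + p2 * (A2 - p2)) : 0 < l0 + l1 * p1 + l2 * p2 := by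
  have e : 4 * k * (l0 + l1 * p1 + l2 * p2) = 4 * k ^ 2 * (p1 * (A1 - p1) + p2 * (A2 - p2))
      + (2 * k * p1 + l1 - k * A1) ^ 2 + (2 * k * p2 + l2 - k * A2) ^ 2
      + (4 * k * l0 - ((l1 - k * A1) ^ 2 + (l2 - k * A2) ^ 2)) := by ring
  have h1 : 0 < 4 * k * (l0 + l1 * p1 + l2 * p2) := by
    rw [e]
    have : 0 ≤ 4 * k ^ 2 * (p1 * (A1 - p1) + p2 * (A2 - p2)) := by positivity
    have := sq_nonneg (2 * k * p1 + l1 - k * A1)
    have := sq_nonneg (2 * k * p2 + l2 - k * A2)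
    linarith
  have h4 : 0 < 4 * k := by linarith
  exact (pos_iff_pos_of_mul_pos h1).mp h4

/-- Stability from separated line spectral frequencies. -/
lemma stable_of_sep (b1 b2 b3 b4 s1 s3 : ℝ) (h1 : 0 < s1) (h3 : s3 < 0)
    (P0 : 0 < 1 + (b1 + b4) + (b2 + b3))
    (P1 : 0 < -(s1 ^ 2 - s1 - 1) + -(s1 - 1) * (b1 + b4) + -1 * (b2 + b3))
    (P2 : 0 < 1 + 1 * (b1 + b4) + -1 * (b2 + b3))
    (P3 : 0 < (s3 ^ 2 - s3 - 1) + (s3 - 1) * (b1 + b4) + 1 * (b2 + b3))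
    (Q1 : 0 < (s1 ^ 2 + s1 - 1) + (s1 + 1) * (b1 - b4) + 1 * (b2 - b3))
    (Q2 : 0 < 1 + -1 * (b1 - b4) + -1 * (b2 - b3))
    (Q3 : 0 < -(s3 ^ 2 + s3 - 1) + -(s3 + 1) * (b1 - b4) + -1 * (b2 - b3))
    (Q4 : 0 < 1 + -1 * (b1 - b4) + 1 * (b2 - b3))
    (C1 : 0 < 4 + 2 * b1 - 2 * b3 - 4 * b4) (C3 : 0 < 4 - 2 * b1 + 2 * b3 - 4 * b4)
    (z : ℂ) (hz : 1 ≤ ‖z‖) :
    z ^ 4 + (b1 : ℂ) * z ^ 3 + b2 * z ^ 2 + b3 * z + b4 ≠ 0 := by
  have hr := res_neg (b1 + b4 - 1) (b2 + b3 - (b1 + b4) - 1) (b1 - b4 + 1)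
    (b1 - b4 + (b2 - b3) - 1) s1 0 s3 h1 h3 (by linarith) (by linarith) (by linarith)
    (by linarith) (by linarith) (by linarith)
  apply schur b1 b2 b3 b4 (by linarith) C1 C3 (by linarith) _ z hz
  nlinarith

lemma stable_a (b1 b2 b3 b4 : ℝ)
    (hp : 0 ≤ (b1 + b4) * (0 - (b1 + b4)) + (b2 + b3) * (0 - (b2 + b3)))
    (hq : 0 ≤ (b1 - b4) * (-129 / 125 - (b1 - b4)) + (b2 - b3) * (-13 / 25 - (b2 - b3)))
    (z : ℂ) (hz : 1 ≤ ‖z‖) :
    z ^ 4 + (b1 : ℂ) * z ^ 3 + b2 * z ^ 2 + b3 * z + b4 ≠ 0 := by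
  have c1 := disc _ _ (37 / 10) 3 1 3 _ _ (by norm_num) (by norm_num) hq
  have c1' := disc _ _ (3 / 10) (-1) (-1) 2 _ _ (by norm_num) (by norm_num) hp
  have c3 := disc _ _ 2 1 (-1) 1 _ _ (by norm_num) (by norm_num) hq
  have c3' := disc _ _ 2 (-3) 1 2 _ _ (by norm_num) (by norm_num) hp
  have P0 := disc _ _ 1 1 1 2 _ _ (by norm_num) (by norm_num) hp
  refine stable_of_sep b1 b2 b3 b4 (1617 / 1000) (-1) (by norm_num) (by norm_num) (by linarith)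
    (disc _ _ _ _ _ 151 _ _ (by norm_num) (by norm_num) hp)
    (disc _ _ _ _ _ 2 _ _ (by norm_num) (by norm_num) hp)
    (disc _ _ _ _ _ 3 _ _ (by norm_num) (by norm_num) hp)
    (disc _ _ _ _ _ (12 / 5) _ _ (by norm_num) (by norm_num) hq)
    (disc _ _ _ _ _ 1 _ _ (by norm_num) (by norm_num) hq)
    (disc _ _ _ _ _ 1 _ _ (by norm_num) (by norm_num) hq)
    (disc _ _ _ _ _ 1 _ _ (by norm_num) (by norm_num) hq)
    (by linarith) (by linarith) z hz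

lemma stable_b (b1 b2 b3 b4 : ℝ)
    (hp : 0 ≤ (b1 + b4) * (128 / 125 - (b1 + b4)) + (b2 + b3) * (43 / 125 - (b2 + b3)))
    (hq : 0 ≤ (b1 - b4) * (-149 / 250 - (b1 - b4)) + (b2 - b3) * (-57 / 250 - (b2 - b3)))
    (z : ℂ) (hz : 1 ≤ ‖z‖) :
    z ^ 4 + (b1 : ℂ) * z ^ 3 + b2 * z ^ 2 + b3 * z + b4 ≠ 0 := by
  have c1 := disc _ _ (23 / 10) 3 1 5 _ _ (by norm_num) (by norm_num) hq
  have c1' := disc _ _ (17 / 10) (-1) (-1) 1 _ _ (by norm_num) (by norm_num) hp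
  have c3 := disc _ _ (8 / 10) 1 (-1) 2 _ _ (by norm_num) (by norm_num) hq
  have c3' := disc _ _ (32 / 10) (-3) 1 3 _ _ (by norm_num) (by norm_num) hp
  have P0 := disc _ _ 1 1 1 1 _ _ (by norm_num) (by norm_num) hp
  refine stable_of_sep b1 b2 b3 b4 (11656 / 10000) (-1438 / 1000) (by norm_num) (by norm_num)
    (by linarith)
    (disc _ _ _ _ _ 1 _ _ (by norm_num) (by norm_num) hp)
    (disc _ _ _ _ _ 1 _ _ (by norm_num) (by norm_num) hp)
    (disc _ _ _ _ _ (12 / 5) _ _ (by norm_num) (by norm_num) hp)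
    (disc _ _ _ _ _ 4 _ _ (by norm_num) (by norm_num) hq)
    (disc _ _ _ _ _ 2 _ _ (by norm_num) (by norm_num) hq)
    (disc _ _ _ _ _ 2 _ _ (by norm_num) (by norm_num) hq)
    (disc _ _ _ _ _ 2 _ _ (by norm_num) (by norm_num) hq)
    (by linarith) (by linarith) z hz

end Pool.Agent.Lib.MP_4b13b5_an
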