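import Mathlib
import Pool.Agent.Lib.MP_4b13b5_an.Schur

set_option autoImplicit false
open Matrix

namespace Pool.Agent.Lib.MP_4b13b5_an

lemma sum_four (b : Fin 4 → ℝ) (z : ℂ) :
    z ^ 4 + ∑ j : Fin 4, ((b j : ℝ) : ℂ) * z ^ (4 - (j.val + 1))
      = z ^ 4 + (b 0 : ℂ) * z ^ 3 + b 1 * z ^ 2 + b 2 * z + b 3 := by
  simp [Fin.sum_univ_four]
  ring

lemma solve_eq (R : Matrix (Fin 4) (Fin 4) ℝ) (hR : R.PosDef) (a : Fin 4 → ℝ) :
    ∃ c : Fin 4 → ℝ, a = c + R *ᵥ c ∧ (R * (1 + R)⁻¹) *ᵥ a = R *ᵥ c ∧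
      ∀ c' : Fin 4 → ℝ, a = c' + R *ᵥ c' → c' = c := by
  have hu : IsUnit (1 + R) := (Matrix.PosDef.one.add hR).isUnit
  have hdet : IsUnit (1 + R).det := (Matrix.isUnit_iff_isUnit_det _).mp hu
  refine ⟨(1 + R)⁻¹ *ᵥ a, ?_, ?_, ?_⟩
  · have : (1 + R) *ᵥ ((1 + R)⁻¹ *ᵥ a) = a := by
      rw [Matrix.mulVec_mulVec, Matrix.mul_nonsing_inv _ hdet, Matrix.one_mulVec]
    rw [Matrix.add_mulVec, Matrix.one_mulVec] at this
    exact this.symm
  · rw [Matrix.mulVec_mulVec]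
  · intro c' hc'
    have : a = (1 + R) *ᵥ c' := by rw [Matrix.add_mulVec, Matrix.one_mulVec]; exact hc'
    rw [this, Matrix.mulVec_mulVec, Matrix.nonsing_inv_mul _ hdet, Matrix.one_mulVec]

/-- The two disc constraints on the symmetric and antisymmetric parts. -/
lemma discs (R : Matrix (Fin 4) (Fin 4) ℝ) (hR : R.PosDef)
    (hT : ∃ r : ℕ → ℝ, ∀ i j : Fin 4, R i j = r (Int.natAbs ((i.val : ℤ) - (j.val : ℤ))))
    (a : Fin 4 → ℝ) :
    let b := (R * (1 + R)⁻¹) *ᵥ a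
    0 ≤ (b 0 + b 3) * ((a 0 + a 3) - (b 0 + b 3)) + (b 1 + b 2) * ((a 1 + a 2) - (b 1 + b 2)) ∧
    0 ≤ (b 0 - b 3) * ((a 0 - a 3) - (b 0 - b 3)) + (b 1 - b 2) * ((a 1 - a 2) - (b 1 - b 2)) := by
  intro b
  obtain ⟨r, hr⟩ := hT
  obtain ⟨c, hc1, hc2, -⟩ := solve_eq R hR a
  have hb : b = R *ᵥ c := hc2
  have hRe : R = !![r 0, r 1, r 2, r 3; r 1, r 0, r 1, r 2; r 2, r 1, r 0, r 1;
      r 3, r 2, r 1, r 0] := by
    ext i j
    rw [hr]
    fin_cases i <;> fin_cases j <;> rfl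
  have b0 : b 0 = r 0 * c 0 + r 1 * c 1 + r 2 * c 2 + r 3 * c 3 := by
    rw [hb, hRe]; simp [Matrix.mulVec, dotProduct, Fin.sum_univ_four]
  have b1 : b 1 = r 1 * c 0 + r 0 * c 1 + r 1 * c 2 + r 2 * c 3 := by
    rw [hb, hRe]; simp [Matrix.mulVec, dotProduct, Fin.sum_univ_four]
  have b2 : b 2 = r 2 * c 0 + r 1 * c 1 + r 0 * c 2 + r 1 * c 3 := by
    rw [hb, hRe]; simp [Matrix.mulVec, dotProduct, Fin.sum_univ_four]
  have b3 : b 3 = r 3 * c 0 + r 2 * c 1 + r 1 * c 2 + r 0 * c 3 := by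
    rw [hb, hRe]; simp [Matrix.mulVec, dotProduct, Fin.sum_univ_four]
  have ha : ∀ i, a i = c i + b i := by
    intro i
    rw [hb]
    exact congrFun hc1 i
  have p1 := hR.posSemidef.dotProduct_mulVec_nonneg ![c 0 + c 3, c 1 + c 2, c 1 + c 2, c 0 + c 3]
  have p2 := hR.posSemidef.dotProduct_mulVec_nonneg ![c 0 - c 3, c 1 - c 2, c 2 - c 1, c 3 - c 0]
  rw [hRe] at p1 p2
  simp [Matrix.mulVec, dotProduct, Fin.sum_univ_four] at p1 p2
  rw [ha 0, ha 1, ha 2, ha 3]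
  constructor
  · rw [b0, b1, b2, b3]; nlinarith
  · rw [b0, b1, b2, b3]; nlinarith

noncomputable def rr : ℕ → ℝ := fun k =>
  if k = 0 then 9557411 / 14364 else if k = 1 then 9216475 / 14364
  else if k = 2 then 8443175 / 14364 else 25196521 / 51300

noncomputable def R0 : Matrix (Fin 4) (Fin 4) ℝ :=
  Matrix.of fun i j => rr (Int.natAbs ((i.val : ℤ) - (j.val : ℤ)))

lemma R0_eq : R0 = !![9557411 / 14364, 9216475 / 14364, 8443175 / 14364, 25196521 / 51300;
    9216475 / 14364, 9557411 / 14364, 9216475 / 14364, 8443175 / 14364;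
    8443175 / 14364, 9216475 / 14364, 9557411 / 14364, 9216475 / 14364;
    25196521 / 51300, 8443175 / 14364, 9216475 / 14364, 9557411 / 14364] := by
  ext i j
  fin_cases i <;> fin_cases j <;> simp [R0, rr]

lemma quad_pos (A B C s t : ℝ) (hA : 0 < A) (h : 0 < A * C - B ^ 2) :
    0 ≤ A * s ^ 2 + 2 * B * s * t + C * t ^ 2 ∧
      (A * s ^ 2 + 2 * B * s * t + C * t ^ 2 = 0 → s = 0 ∧ t = 0) := by
  have e : A * (A * s ^ 2 + 2 * B * s * t + C * t ^ 2) = (A * s + B * t) ^ 2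
      + (A * C - B ^ 2) * t ^ 2 := by ring
  have n1 := sq_nonneg (A * s + B * t)
  have n2 : 0 ≤ (A * C - B ^ 2) * t ^ 2 := by positivity
  constructor
  · by_contra hc
    push Not at hc
    have := mul_neg_of_pos_of_neg hA hc
    linarith
  · intro h0
    rw [h0, mul_zero] at e
    have t2 : (A * C - B ^ 2) * t ^ 2 = 0 := by linarith
    have t0 : t = 0 := by
      rcases mul_eq_zero.mp t2 with h' | h'
      · linarith
      · exact pow_eq_zero_iff two_ne_zero |>.mp h'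
    have s2 : (A * s + B * t) ^ 2 = 0 := by linarith
    have s1 : A * s + B * t = 0 := pow_eq_zero_iff two_ne_zero |>.mp s2
    rw [t0, mul_zero, add_zero] at s1
    refine ⟨?_, t0⟩
    rcases mul_eq_zero.mp s1 with h' | h'
    · linarith
    · exact h'

lemma R0_posDef : R0.PosDef := by
  apply Matrix.PosDef.of_dotProduct_mulVec_pos
  · rw [R0_eq]
    ext i j
    fin_cases i <;> fin_cases j <;> simp
  · intro x hx
    have q1 := quad_pos (9557411 / 14364 + 25196521 / 51300) (9216475 / 14364 + 8443175 / 14364)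
      (9557411 / 14364 + 9216475 / 14364) (x 0 + x 3) (x 1 + x 2) (by norm_num) (by norm_num)
    have q2 := quad_pos (9557411 / 14364 - 25196521 / 51300) (9216475 / 14364 - 8443175 / 14364)
      (9557411 / 14364 - 9216475 / 14364) (x 0 - x 3) (x 1 - x 2) (by norm_num) (by norm_num)
    have e : star x ⬝ᵥ R0 *ᵥ x = (1 / 2) *
        (((9557411 / 14364 + 25196521 / 51300) * (x 0 + x 3) ^ 2
          + 2 * (9216475 / 14364 + 8443175 / 14364) * (x 0 + x 3) * (x 1 + x 2)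
          + (9557411 / 14364 + 9216475 / 14364) * (x 1 + x 2) ^ 2)
        + ((9557411 / 14364 - 25196521 / 51300) * (x 0 - x 3) ^ 2
          + 2 * (9216475 / 14364 - 8443175 / 14364) * (x 0 - x 3) * (x 1 - x 2)
          + (9557411 / 14364 - 9216475 / 14364) * (x 1 - x 2) ^ 2)) := by
      rw [R0_eq]
      simp [Matrix.mulVec, dotProduct, Fin.sum_univ_four]
      ring
    rw [e]
    by_contra hc
    push Not at hc
    have z1 := q1.2 (by linarith [q1.1, q2.1])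
    have z2 := q2.2 (by linarith [q1.1, q2.1])
    apply hx
    funext i
    fin_cases i <;> simp <;> linarith [z1.1, z1.2, z2.1, z2.2]

lemma mid_image :
    (R0 * (1 + R0)⁻¹) *ᵥ ![-151 / 1000, -101 / 1000, 273 / 1000, 663 / 1000]
      = ![-241 / 1000, -557 / 62500, 21873 / 62500, 573 / 1000] := by
  obtain ⟨c, -, hc2, hc3⟩ := solve_eq R0 R0_posDef
    ![-151 / 1000, -101 / 1000, 273 / 1000, 663 / 1000]
  have hRc : R0 *ᵥ ![9 / 100, -11511 / 125000, -9621 / 125000, 9 / 100]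
      = ![-241 / 1000, -557 / 62500, 21873 / 62500, 573 / 1000] := by
    rw [R0_eq]
    funext i
    fin_cases i <;> simp [Matrix.mulVec, dotProduct, Fin.sum_univ_four] <;> norm_num
  have := hc3 ![9 / 100, -11511 / 125000, -9621 / 125000, 9 / 100] (by
    rw [hRc]
    funext i
    fin_cases i <;> simp <;> norm_num)
  rw [hc2, ← this, hRc]

lemma mid_root : ∃ z : ℂ, 1 ≤ ‖z‖ ∧
    z ^ 4 + ((-241 / 1000 : ℝ) : ℂ) * z ^ 3 + ((-557 / 62500 : ℝ) : ℂ) * z ^ 2
      + ((21873 / 62500 : ℝ) : ℂ) * z + ((573 / 1000 : ℝ) : ℂ) = 0 := by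
  set s : ℝ := Real.sqrt (1 - (173 / 250) ^ 2) with hs
  have hs2 : s ^ 2 = 1 - (173 / 250) ^ 2 := Real.sq_sqrt (by norm_num)
  have hs2c : (s : ℂ) ^ 2 = 1 - (173 / 250) ^ 2 := by
    have := congrArg (fun t : ℝ => (t : ℂ)) hs2
    push_cast at this
    exact this
  refine ⟨173 / 250 + s * Complex.I, ?_, ?_⟩
  · have : Complex.normSq (173 / 250 + s * Complex.I) = 1 := by
      rw [Complex.normSq_apply]
      simp
      nlinarith
    rw [Complex.normSq_eq_norm_sq] at this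
    nlinarith [norm_nonneg (173 / 250 + s * Complex.I)]
  · have hq : (173 / 250 + s * Complex.I) ^ 2 - 173 / 125 * (173 / 250 + s * Complex.I) + 1 = 0 := by
      linear_combination (s : ℂ) ^ 2 * Complex.I_sq - hs2c
    push_cast
    linear_combination ((173 / 250 + s * Complex.I) ^ 2 + 1143 / 1000 * (173 / 250 + s * Complex.I)
      + 573 / 1000) * hq

end Pool.Agent.Lib.MP_4b13b5_an
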